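import Pool.Agent.H458Z.Sec.OddA

/-!
# The gap set in odd characteristic: internal points on the secants of 39 points of a parabola
-/

set_option autoImplicit false

namespace Pool.Agent.H458Z.Sec

open Finset

variable {F : Type} [Field F] [Fintype F] [DecidableEq F]

/-- The internal points of the parabola `y = x ^ 2` on secants through two points over `V`. -/
def intT (V : Finset F) : Finset (F × F) :=
  univ.filter fun p => quadraticChar F (p.1 ^ 2 - p.2) = -1 ∧
    ∃ s ∈ V, ∃ t ∈ V, (s - p.1) * (t - p.1) = p.1 ^ 2 - p.2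

theorem mem_intT (V : Finset F) (x y : F) : (x, y) ∈ intT V ↔ quadraticChar F (x ^ 2 - y) = -1 ∧
    ∃ s ∈ V, ∃ t ∈ V, (s - x) * (t - x) = x ^ 2 - y := by
  simp only [intT, mem_filter, mem_univ, true_and]

/-- The meeting points of secants and the chosen points of the parabola. -/
def mulP (V : Finset F) : Finset (F × F) :=
  ((V ×ˢ V ×ˢ V ×ˢ V).image fun p => (mx p, mx p ^ 2 - (p.1 - mx p) * (p.2.1 - mx p))) ∪
    V.image fun s => (s, s ^ 2)

/-- The lines through two of these points. -/
def excL (V : Finset F) : Finset (F × F) :=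
  (mulP V ×ˢ mulP V).image fun p => ((p.2.2 - p.1.2) / (p.2.1 - p.1.1),
    p.1.2 - (p.2.2 - p.1.2) / (p.2.1 - p.1.1) * p.1.1)

omit [Fintype F] in
theorem mem_excL (V : Finset F) {μ ν x x' : F} (h : (x, μ * x + ν) ∈ mulP V)
    (h' : (x', μ * x' + ν) ∈ mulP V) (hx : x ≠ x') : (μ, ν) ∈ excL V := by
  refine mem_image.2 ⟨((x, μ * x + ν), (x', μ * x' + ν)), mem_product.2 ⟨h, h'⟩, ?_⟩
  have h0 : x' - x ≠ 0 := sub_ne_zero.2 hx.symm
  have e : (μ * x' + ν - (μ * x + ν)) / (x' - x) = μ := by
    field_simp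
    ring
  dsimp only
  rw [e]
  congr 1
  ring

omit [Fintype F] in
theorem card_excL (V : Finset F) (hV : #V = 39) : #(excL V) ≤ (39 ^ 4 + 39) ^ 2 := by
  have h1 : #(mulP V) ≤ 39 ^ 4 + 39 := by
    refine (card_union_le _ _).trans (add_le_add (card_image_le.trans ?_) (card_image_le.trans ?_))
    · simp [hV]
    · simp [hV]
  refine card_image_le.trans ?_
  rw [card_product, sq]
  exact Nat.mul_le_mul h1 h1

theorem card_signs (V : Finset F) (f : F → F) :
    #(V.filter fun s => quadraticChar F (f s) = 1) +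
      #(V.filter fun s => quadraticChar F (f s) = -1) ≤ #V := by
  rw [← card_union_of_disjoint]
  · exact card_le_card (union_subset (filter_subset _ _) (filter_subset _ _))
  · rw [disjoint_filter]
    intro s _ h1 h2
    rw [h1] at h2
    simp at h2

theorem lc_intT (V : Finset F) (hV : #V = 39) (hG : Gen V) (μ ν : F) (hE : (μ, ν) ∉ excL V) :
    lc (intT V) μ ν ≤ 368 ∨ 373 ≤ lc (intT V) μ ν := by
  set f : F → F := fun s => s ^ 2 - μ * s - ν with hf
  set P := V.filter fun s => quadraticChar F (f s) = 1 with hP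
  set N := V.filter fun s => quadraticChar F (f s) = -1 with hN
  set ψ : F × F → F := fun p => (p.1 * p.2 + ν) / (p.1 + p.2 - μ) with hψ
  have hPN : ∀ s t, (s, t) ∈ P ×ˢ N ↔ (s ∈ V ∧ quadraticChar F (f s) = 1) ∧
      (t ∈ V ∧ quadraticChar F (f t) = -1) := by
    intro s t
    simp only [hP, hN, mem_product, mem_filter]
  have hne : ∀ s t, quadraticChar F (f s) = 1 → quadraticChar F (f t) = -1 → f s ≠ f t := by
    intro s t h1 h2 h
    rw [h, h2] at h1
    simp at h1
  have k1 : ∀ s t, (s, t) ∈ P ×ˢ N → s ≠ t ∧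
      (s - ψ (s, t)) * (t - ψ (s, t)) = ψ (s, t) ^ 2 - (μ * ψ (s, t) + ν) ∧
      quadraticChar F ((s - ψ (s, t)) * (t - ψ (s, t))) = -1 := by
    intro s t h
    rw [hPN] at h
    have h0 := hne s t h.1.2 h.2.2
    have hD : s + t - μ ≠ 0 := by
      intro hD
      apply h0
      simp only [hf]
      linear_combination (s - t) * hD
    refine ⟨fun e => h0 (by rw [e]), ?_, ?_⟩
    · simp only [hψ]
      field_simp
      ring
    · rw [← chi_mul_sq _ hD]
      have : (s - ψ (s, t)) * (t - ψ (s, t)) * (s + t - μ) ^ 2 = f s * f t := by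
        simp only [hψ, hf]
        field_simp
        ring
      rw [this, map_mul, h.1.2, h.2.2, one_mul]
  have himg : (univ.filter fun x => (x, μ * x + ν) ∈ intT V) = (P ×ˢ N).image ψ := by
    ext x
    simp only [mem_filter, mem_univ, true_and, mem_intT, mem_image]
    constructor
    · rintro ⟨hχ, s, hs, t, ht, h⟩
      have hst : s ≠ t := by
        rintro rfl
        rw [← h, ← sq] at hχ
        by_cases h0 : s - x = 0
        · rw [h0] at hχ
          simp at hχ
        · rw [quadraticChar_sq_one' h0] at hχ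
          simp at hχ
      have hD : s + t - μ ≠ 0 := by
        intro hD
        apply hE
        have e1 : μ * s + ν = s ^ 2 := by linear_combination h + (x - s) * hD
        have e2 : μ * t + ν = t ^ 2 := by linear_combination h + (x - t) * hD
        refine mem_excL V (x := s) (x' := t) ?_ ?_ hst
        · rw [e1]
          exact mem_union_right _ (mem_image_of_mem _ hs)
        · rw [e2]
          exact mem_union_right _ (mem_image_of_mem _ ht)
      have hx : ψ (s, t) = x := by
        simp only [hψ]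
        field_simp
        linear_combination h
      have hx' : ψ (t, s) = x := by
        rw [← hx]
        simp only [hψ]
        rw [mul_comm, add_comm t s]
      have : (s - x) * (t - x) * (s + t - μ) ^ 2 = f s * f t := by
        rw [← hx]
        simp only [hψ, hf]
        field_simp
        ring
      rw [← h, ← chi_mul_sq _ hD, this] at hχ
      rcases chi_mul_neg hχ with h1 | h1
      · exact ⟨(s, t), (hPN s t).2 ⟨⟨hs, h1.1⟩, ht, h1.2⟩, hx⟩
      · exact ⟨(t, s), (hPN t s).2 ⟨⟨ht, h1.1⟩, hs, h1.2⟩, hx'⟩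
    · rintro ⟨⟨s, t⟩, hp, rfl⟩
      obtain ⟨-, h1, h2⟩ := k1 s t hp
      rw [hPN] at hp
      exact ⟨h1 ▸ h2, s, hp.1.1, t, hp.2.1, h1⟩
  have hfib2 : ∀ x, #((P ×ˢ N).filter fun d => ψ d = x) ≤ 2 := by
    intro x
    rcases ((P ×ˢ N).filter fun d => ψ d = x).eq_empty_or_nonempty with h | ⟨⟨s0, t0⟩, h0⟩
    · rw [h]
      simp
    rw [mem_filter] at h0
    have hδ : x ^ 2 - (μ * x + ν) ≠ 0 := by
      obtain ⟨-, h1, h2⟩ := k1 s0 t0 h0.1
      rw [h0.2] at h1 h2
      intro h
      rw [h1, h] at h2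
      simp at h2
    have h4 := hG x _ hδ
    have hsub : ((P ×ˢ N).filter fun d => ψ d = x) ∪
        ((P ×ˢ N).filter fun d => ψ d = x).image Prod.swap ⊆ pairs V x (x ^ 2 - (μ * x + ν)) := by
      have key : ∀ s t, (s, t) ∈ ((P ×ˢ N).filter fun d => ψ d = x) →
          s ∈ V ∧ t ∈ V ∧ s ≠ t ∧ (s - x) * (t - x) = x ^ 2 - (μ * x + ν) := by
        intro s t h
        rw [mem_filter] at h
        obtain ⟨h1, h2, -⟩ := k1 s t h.1
        rw [h.2] at h2
        exact ⟨((hPN s t).1 h.1).1.1, ((hPN s t).1 h.1).2.1, h1, h2⟩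
      rintro ⟨s, t⟩ h
      rw [mem_pairs]
      rcases mem_union.1 h with h | h
      · exact key s t h
      · obtain ⟨⟨a, b⟩, hab, he⟩ := mem_image.1 h
        simp only [Prod.swap_prod_mk, Prod.mk.injEq] at he
        obtain ⟨rfl, rfl⟩ := he
        obtain ⟨h1, h2, h3, h4⟩ := key a b hab
        exact ⟨h2, h1, h3.symm, by rw [mul_comm]; exact h4⟩
    have h5 := card_le_card hsub
    rw [card_union_of_disjoint, card_image_of_injective _ Prod.swap_injective] at h5
    · omega
    · rw [disjoint_left]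
      rintro ⟨s, t⟩ h h'
      obtain ⟨⟨a, b⟩, hab, he⟩ := mem_image.1 h'
      simp only [Prod.swap_prod_mk, Prod.mk.injEq] at he
      obtain ⟨rfl, rfl⟩ := he
      exact hne _ _ ((hPN _ _).1 (mem_filter.1 h).1).1.2 ((hPN _ _).1 (mem_filter.1 hab).1).2.2 rfl
  have hmul : ∀ x, 1 < #((P ×ˢ N).filter fun d => ψ d = x) → (x, μ * x + ν) ∈ mulP V := by
    intro x hx
    obtain ⟨⟨s, t⟩, h, ⟨s', t'⟩, h', hne'⟩ := one_lt_card.1 hx
    rw [mem_filter] at h h'
    obtain ⟨-, h1, -⟩ := k1 s t h.1
    obtain ⟨-, h1', -⟩ := k1 s' t' h'.1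
    rw [h.2] at h1
    rw [h'.2] at h1'
    have m := (hPN s t).1 h.1
    have m' := (hPN s' t').1 h'.1
    have hx : x = mx (s, t, s', t') := by
      rcases eq_mx (h1.trans h1'.symm) with e | e | e
      · exact absurd (by rw [e.1, e.2]) hne'
      · exact absurd (by rw [e.1]) (hne s t' m.1.2 m'.2.2)
      · exact e
    refine mem_union_left _ (mem_image.2 ⟨(s, t, s', t'), ?_, ?_⟩)
    · simp [m.1.1, m.2.1, m'.1.1, m'.2.1]
    · dsimp only
      rw [← hx, h1]
      congr 1
      ring
  obtain ⟨x0, hx0⟩ : ∃ x0, ∀ x, x ≠ x0 → #((P ×ˢ N).filter fun d => ψ d = x) ≤ 1 := by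
    by_cases h : ∃ x0, 1 < #((P ×ˢ N).filter fun d => ψ d = x0)
    · obtain ⟨x0, h0⟩ := h
      refine ⟨x0, fun x hx => ?_⟩
      by_contra hc
      exact hE (mem_excL V (hmul x (by omega)) (hmul x0 h0) hx)
    · push Not at h
      exact ⟨0, fun x _ => h x⟩
  have h1 := card_le_image_add_one (P ×ˢ N) ψ x0 hfib2 hx0
  have h2 := card_image_le (s := P ×ˢ N) (f := ψ)
  rw [card_product] at h1 h2
  have h3 : #P + #N ≤ 39 := hV ▸ card_signs V f
  unfold lc
  rw [himg]
  rcases h3.eq_or_lt with h | h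
  · have := cut_values h
    omega
  · have := cut_small (i := #P) (j := #N) (by omega)
    omega

theorem vc_intT (V : Finset F) (c : F) :
    vc (intT V) c ≤ #(V.filter fun s => quadraticChar F (s - c) = 1) *
      #(V.filter fun s => quadraticChar F (s - c) = -1) ∧
    (c ∉ (V ×ˢ V ×ˢ V ×ˢ V).image mx →
      vc (intT V) c = #(V.filter fun s => quadraticChar F (s - c) = 1) *
        #(V.filter fun s => quadraticChar F (s - c) = -1)) := by
  set P := V.filter fun s => quadraticChar F (s - c) = 1 with hP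
  set N := V.filter fun s => quadraticChar F (s - c) = -1 with hN
  have hPN : ∀ s t, (s, t) ∈ P ×ˢ N ↔ (s ∈ V ∧ quadraticChar F (s - c) = 1) ∧
      (t ∈ V ∧ quadraticChar F (t - c) = -1) := by
    intro s t
    simp only [hP, hN, mem_product, mem_filter]
  have himg : (univ.filter fun y => (c, y) ∈ intT V) =
      (P ×ˢ N).image fun p => c ^ 2 - (p.1 - c) * (p.2 - c) := by
    ext y
    simp only [mem_filter, mem_univ, true_and, mem_intT, mem_image]
    constructor
    · rintro ⟨hχ, s, hs, t, ht, h⟩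
      rw [← h] at hχ
      rcases chi_mul_neg hχ with h1 | h1
      · exact ⟨(s, t), (hPN s t).2 ⟨⟨hs, h1.1⟩, ht, h1.2⟩, by linear_combination -h⟩
      · exact ⟨(t, s), (hPN t s).2 ⟨⟨ht, h1.1⟩, hs, h1.2⟩, by linear_combination -h⟩
    · rintro ⟨⟨s, t⟩, hp, rfl⟩
      rw [hPN] at hp
      refine ⟨?_, s, hp.1.1, t, hp.2.1, by ring⟩
      rw [sub_sub_cancel, map_mul, hp.1.2, hp.2.2, one_mul]
  unfold vc
  rw [himg, ← card_product]
  refine ⟨card_image_le, fun hc => card_image_of_injOn ?_⟩
  rintro ⟨s, t⟩ h ⟨s', t'⟩ h' he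
  have m := (hPN s t).1 h
  have m' := (hPN s' t').1 h'
  rcases eq_mx (show (s - c) * (t - c) = (s' - c) * (t' - c) by linear_combination -he) with
    e | e | e
  · rw [e.1, e.2]
  · have := m.1.2
    rw [e.1, m'.2.2] at this
    simp at this
  · exact absurd (mem_image.2 ⟨(s, t, s', t'), by simp [m.1.1, m.2.1, m'.1.1, m'.2.1], e.symm⟩) hc

theorem sum_signs (h2 : ringChar F ≠ 2) (V : Finset F) (hV : #V = 39) :
    2 * ∑ c : F, #(V.filter fun s => quadraticChar F (s - c) = 1) *
      #(V.filter fun s => quadraticChar F (s - c) = -1) + 741 = 741 * Fintype.card F := by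
  have h1 : ∀ c : F, #(V.offDiag.filter fun p => quadraticChar F ((p.1 - c) * (p.2 - c)) = -1) =
      2 * (#(V.filter fun s => quadraticChar F (s - c) = 1) *
        #(V.filter fun s => quadraticChar F (s - c) = -1)) := by
    intro c
    have : (V.offDiag.filter fun p => quadraticChar F ((p.1 - c) * (p.2 - c)) = -1) =
        ((V.filter fun s => quadraticChar F (s - c) = 1) ×ˢ
          (V.filter fun s => quadraticChar F (s - c) = -1)) ∪
        ((V.filter fun s => quadraticChar F (s - c) = -1) ×ˢ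
          (V.filter fun s => quadraticChar F (s - c) = 1)) := by
      ext ⟨s, t⟩
      simp only [mem_filter, mem_offDiag, mem_union, mem_product]
      constructor
      · rintro ⟨⟨hs, ht, -⟩, h⟩
        rcases chi_mul_neg h with h1 | h1
        · exact Or.inl ⟨⟨hs, h1.1⟩, ht, h1.2⟩
        · exact Or.inr ⟨⟨hs, h1.2⟩, ht, h1.1⟩
      · rintro (⟨⟨hs, h1⟩, ht, h3⟩ | ⟨⟨hs, h1⟩, ht, h3⟩)
        · refine ⟨⟨hs, ht, ?_⟩, by rw [map_mul, h1, h3, one_mul]⟩
          rintro rfl
          rw [h1] at h3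
          simp at h3
        · refine ⟨⟨hs, ht, ?_⟩, by rw [map_mul, h1, h3, mul_one]⟩
          rintro rfl
          rw [h1] at h3
          simp at h3
    rw [this, card_union_of_disjoint, card_product, card_product]
    · ring
    · rw [disjoint_left]
      rintro ⟨s, t⟩ h h'
      simp only [mem_product, mem_filter] at h h'
      have := h.1.2
      rw [h'.1.2] at this
      simp at this
  have h3 : ∑ c : F, #(V.offDiag.filter fun p => quadraticChar F ((p.1 - c) * (p.2 - c)) = -1) =
      ∑ p ∈ V.offDiag, #(univ.filter fun c : F =>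
        quadraticChar F ((p.1 - c) * (p.2 - c)) = -1) := by
    simp only [card_filter]
    exact sum_comm
  have h4 : ∑ p ∈ V.offDiag, (2 * #(univ.filter fun c : F =>
      quadraticChar F ((p.1 - c) * (p.2 - c)) = -1) + 1) = #V.offDiag * Fintype.card F :=
    sum_const_nat fun p hp => card_pair_nonsq h2 (mem_offDiag.1 hp).2.2
  rw [sum_add_distrib, ← mul_sum, ← h3, sum_const_nat (m := 1) fun _ _ => rfl, offDiag_card,
    hV] at h4
  simp only [h1, ← mul_sum] at h4
  omega

theorem gadget_odd (h2 : ringChar F ≠ 2) {L : ℕ} (hL : 2 ^ 90 ≤ L)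
    (hq : 78 ^ 5 + 78 < Fintype.card F) : Gadget F L := by
  obtain ⟨V, X, hV, hG, hX, hfree⟩ := exists_free hq
  have hw : ∀ c : F, #(V.filter fun s => quadraticChar F (s - c) = 1) *
      #(V.filter fun s => quadraticChar F (s - c) = -1) ≤ 1521 := by
    intro c
    exact Nat.mul_le_mul (hV ▸ card_filter_le V _ : _ ≤ 39) (hV ▸ card_filter_le V _ : _ ≤ 39)
  have hT : #(intT V) = ∑ u, vc (intT V) u := by
    unfold vc
    simp only [card_filter]
    rw [← Fintype.sum_prod_type (f := fun p : F × F => if (p.1, p.2) ∈ intT V then 1 else 0)]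
    simp
  have hs := sum_signs h2 V hV
  have hup : ∑ u, vc (intT V) u ≤ ∑ c : F, #(V.filter fun s => quadraticChar F (s - c) = 1) *
      #(V.filter fun s => quadraticChar F (s - c) = -1) :=
    sum_le_sum fun c _ => (vc_intT V c).1
  have hlo : ∑ c : F, #(V.filter fun s => quadraticChar F (s - c) = 1) *
      #(V.filter fun s => quadraticChar F (s - c) = -1) ≤
      ∑ u, (vc (intT V) u + if u ∈ (V ×ˢ V ×ˢ V ×ˢ V).image mx then 1521 else 0) := by
    apply sum_le_sum
    intro c _
    split_ifs with h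
    · exact (hw c).trans (Nat.le_add_left _ _)
    · exact ((vc_intT V c).2 h).ge
  rw [sum_add_distrib, ← sum_filter, sum_const_nat (m := 1521) fun _ _ => rfl] at hlo
  have hB : #(univ.filter fun u => u ∈ (V ×ˢ V ×ˢ V ×ˢ V).image mx) ≤ 39 ^ 4 := by
    rw [filter_mem_eq_inter, univ_inter]
    refine card_image_le.trans ?_
    simp [hV]
  have hE := card_excL V hV
  refine ⟨intT V, X, excL V, lc_intT V hV hG, ?_, ?_, by omega, ?_, by omega, by omega⟩
  · intro c hc y hy
    obtain ⟨hχ, s, hs, t, ht, h⟩ := (mem_intT V c y).1 hy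
    rw [← h, hfree c hc s hs t ht] at hχ
    simp at hχ
  · intro u
    exact Or.inl ((vc_intT V u).1.trans (hw u))
  · have : 2 ^ 90 * (#X + 1) ≤ L * (#X + 1) := Nat.mul_le_mul_right _ hL
    omega

end Pool.Agent.H458Z.Sec
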