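import Pool.Agent.H458Z.Sec.Main
import Pool.Agent.H458Z.Sec.OddB

/-!
# All sizes are attained as soon as `k` and `q + 1 - k` exceed an absolute constant
-/

set_option autoImplicit false

namespace Pool.Agent.H458Z.Sec

open Finset

variable {F : Type} [Field F] [Fintype F] [DecidableEq F]

theorem att_mid' {K : ℕ} (hK : 100 * ((2 ^ 90) ^ 3 + 30 * 2 ^ 90 + 30) ≤ K) {k m : ℕ} (hKk : K ≤ k)
    (hk : 2 * k ≤ Fintype.card F + 1)
    (h1 : (k - 1) * Fintype.card F ≤ m) (h2 : m ≤ (k + 1) * Fintype.card F) : Att F k m := by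
  by_cases hq : 100 * Fintype.card F < k ^ 2
  · exact att_mid hq hk h1 h2
  have hG : Gadget F (2 ^ 90) := by
    by_cases h : ringChar F = 2
    · exact gadget_even h (by norm_num) (by omega)
    · exact gadget_odd h le_rfl (by omega)
  refine hG.att (by omega) ?_ h1 h2
  generalize (2 ^ 90) ^ 3 + 30 * 2 ^ 90 + 30 = A at hK ⊢
  have : k * (100 * A) ≤ k * k := Nat.mul_le_mul_left _ (by omega)
  nlinarith

theorem att_all' {K : ℕ} (hK : 100 * ((2 ^ 90) ^ 3 + 30 * 2 ^ 90 + 30) ≤ K) {k m : ℕ} (h1 : K ≤ k)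
    (h2 : k + K ≤ Fintype.card F + 1)
    (hm : m ≤ Fintype.card F ^ 2 + Fintype.card F + 1) : Att F k m := by
  set q := Fintype.card F with hqdef
  have hk3 : 3 ≤ k := by omega
  obtain ⟨l, hl⟩ : ∃ l, q + 1 = k + l := ⟨q + 1 - k, by omega⟩
  have hk3' : 3 ≤ l := by omega
  have hcompl : Att F l (q ^ 2 + q + 1 - m) → Att F k m := by
    intro h
    have := h.compl (by omega)
    rw [← hqdef] at this
    have e1 : q + 1 - l = k := by omega
    have e2 : q ^ 2 + q + 1 - (q ^ 2 + q + 1 - m) = m := by omega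
    rwa [e1, e2] at this
  have hid : (k + 1) * q + (l - 1) * q = q ^ 2 + q := by
    rw [← add_mul]
    have : k + 1 + (l - 1) = q + 1 := by omega
    rw [this]
    ring
  have hid' : (k - 1) * q + (l + 1) * q = q ^ 2 + q := by
    rw [← add_mul]
    have : k - 1 + (l + 1) = q + 1 := by omega
    rw [this]
    ring
  by_cases ha : m ≤ (k - 1) * q
  · exact att_small hk3 (by omega) ha
  by_cases hb : (k + 1) * q < m
  · exact hcompl (att_small hk3' (by omega) (by rw [← hqdef]; omega))
  by_cases hc : 2 * k ≤ q + 1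
  · exact att_mid' hK h1 hc (by rw [← hqdef]; omega) (by rw [← hqdef]; omega)
  · exact hcompl (att_mid' hK (by omega) (by omega) (by rw [← hqdef]; omega)
      (by rw [← hqdef]; omega))

omit [Fintype F] [DecidableEq F] in
theorem dual_form {k : ℕ} {S : Set (Projectivization F (Fin 3 → F))}
    (h : ∀ W : Submodule F (Fin 3 → F), Module.finrank F W = 2 →
      (S ∩ {p : Projectivization F (Fin 3 → F) | p.submodule ≤ W}).ncard ≠ k)
    (l : Projectivization F (Fin 3 → F)) :
    {p : Projectivization F (Fin 3 → F) | p ∈ S ∧ ∑ i, p.rep i * l.rep i = 0}.ncard ≠ k := by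
  let f : Module.Dual F (Fin 3 → F) :=
    { toFun := fun v => ∑ i, v i * l.rep i
      map_add' := fun v w => by simp [add_mul, sum_add_distrib]
      map_smul' := fun a v => by simp [mul_sum, mul_assoc] }
  have hf : f ≠ 0 := by
    intro h0
    apply l.rep_nonzero
    funext j
    have := LinearMap.congr_fun h0 (Pi.single j 1)
    simpa [f, Pi.single_apply] using this
  have hker : Module.finrank F (LinearMap.ker f) = 2 := by
    have := Module.Dual.finrank_ker_add_one_of_ne_zero hf
    simp at this
    omega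
  have := h _ hker
  convert this using 2
  ext p
  simp only [Set.mem_ofPred_eq, Set.mem_inter_iff, Projectivization.submodule_eq,
    Submodule.span_singleton_le_iff_mem, LinearMap.mem_ker]
  rfl

end Pool.Agent.H458Z.Sec
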