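import Mathlib

/-!
# Point sets of the projective plane that avoid a secant size: coordinates

A point set is given by its affine part `T`, its part `U` on the line at infinity (slopes) and an
indicator `e` for the vertical direction.
-/

set_option autoImplicit false

namespace Pool.Agent.H458Z.Sec

open Finset

variable {F : Type} [Field F] [Fintype F] [DecidableEq F]

/-- No line meets the set given by `T`, `U`, `e` in exactly `k` points. -/
def Avoid (k : ℕ) (T : Finset (F × F)) (U : Finset F) (e : ℕ) : Prop :=
  e ≤ 1 ∧
  (∀ μ ν : F, #(univ.filter fun x => (x, μ * x + ν) ∈ T) + (if μ ∈ U then 1 else 0) ≠ k) ∧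
  (∀ u : F, #(univ.filter fun y => (u, y) ∈ T) + e ≠ k) ∧
  (#U + e ≠ k)

/-- The size `m` is attained by a `k`-avoiding set. -/
def Att (F : Type) [Field F] [Fintype F] [DecidableEq F] (k m : ℕ) : Prop :=
  ∃ (T : Finset (F × F)) (U : Finset F) (e : ℕ), Avoid k T U e ∧ #T + #U + e = m

theorem Att.compl {k m : ℕ} (h : Att F k m) (hk : k ≤ Fintype.card F + 1) :
    Att F (Fintype.card F + 1 - k) (Fintype.card F ^ 2 + Fintype.card F + 1 - m) := by
  obtain ⟨T, U, e, ⟨he, h1, h2, h3⟩, hm⟩ := h
  have hT : #T ≤ Fintype.card F ^ 2 := by
    have := card_le_univ T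
    simpa [sq] using this
  have hU : #U ≤ Fintype.card F := card_le_univ U
  refine ⟨Tᶜ, Uᶜ, 1 - e, ⟨by omega, ?_, ?_, ?_⟩, ?_⟩
  · intro μ ν
    have h := h1 μ ν
    have hc := card_filter_add_card_filter_not (s := (univ : Finset F))
      (fun x => (x, μ * x + ν) ∈ T)
    simp only [card_univ] at hc
    simp only [mem_compl]
    by_cases hμ : μ ∈ U
    · simp only [hμ, if_true, not_true_eq_false, if_false] at h ⊢
      omega
    · simp only [hμ, if_false, not_false_eq_true, if_true] at h ⊢
      omega
  · intro u
    have h := h2 u
    have hc := card_filter_add_card_filter_not (s := (univ : Finset F))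
      (fun y => (u, y) ∈ T)
    simp only [card_univ] at hc
    simp only [mem_compl]
    omega
  · rw [card_compl]
    omega
  · rw [card_compl, card_compl]
    have : Fintype.card (F × F) = Fintype.card F ^ 2 := by simp [sq]
    omega

/-- Coordinates of the points. -/
def vec : (F × F) ⊕ F ⊕ Unit → Fin 3 → F
  | .inl p => ![p.1, p.2, 1]
  | .inr (.inl w) => ![1, w, 0]
  | .inr (.inr _) => ![0, 1, 0]

omit [Fintype F] [DecidableEq F] in
theorem vec_ne (t : (F × F) ⊕ F ⊕ Unit) : vec t ≠ 0 := by
  intro h
  rcases t with p | w | u
  · have := congrFun h 2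
    simp [vec] at this
  · have := congrFun h 0
    simp [vec] at this
  · have := congrFun h 1
    simp [vec] at this

/-- The point of the projective plane with the given coordinates. -/
def emb (t : (F × F) ⊕ F ⊕ Unit) : Projectivization F (Fin 3 → F) :=
  Projectivization.mk F (vec t) (vec_ne t)

omit [Fintype F] [DecidableEq F] in
theorem emb_inj : Function.Injective (emb (F := F)) := by
  intro s t h
  obtain ⟨a, ha⟩ := (Projectivization.mk_eq_mk_iff' F _ _ _ _).1 h
  have h0 := congrFun ha 0
  have h1 := congrFun ha 1
  have h2 := congrFun ha 2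
  rcases s with p | w | u <;> rcases t with p' | w' | u' <;>
    simp [vec] at h0 h1 h2 ⊢
  · subst h2
    ext
    · simpa using h0.symm
    · simpa using h1.symm
  · simp [h2] at h0
  · subst h0
    simpa using h1.symm
  · simp [h2] at h1
  · simp [h0] at h1

omit [Fintype F] [DecidableEq F] in
theorem exists_eqn (W : Submodule F (Fin 3 → F)) (hW : Module.finrank F W = 2) :
    ∃ a b c : F, (a ≠ 0 ∨ b ≠ 0 ∨ c ≠ 0) ∧
      ∀ v : Fin 3 → F, v ∈ W ↔ a * v 0 + b * v 1 + c * v 2 = 0 := by
  have hlt : W < ⊤ := by
    rw [lt_top_iff_ne_top]
    intro h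
    rw [h] at hW
    simp at hW
  obtain ⟨f, hf, hle⟩ := Submodule.exists_le_ker_of_lt_top W hlt
  have hker : Module.finrank F (LinearMap.ker f) = 2 := by
    have := Module.Dual.finrank_ker_add_one_of_ne_zero hf
    simp at this
    omega
  have heq : W = LinearMap.ker f := Submodule.eq_of_le_of_finrank_eq hle (by rw [hW, hker])
  have hfv : ∀ v : Fin 3 → F, f v = f (Pi.single 0 1) * v 0 + f (Pi.single 1 1) * v 1 +
      f (Pi.single 2 1) * v 2 := by
    intro v
    have : v = v 0 • (Pi.single 0 1 : Fin 3 → F) + v 1 • (Pi.single 1 1 : Fin 3 → F) +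
        v 2 • (Pi.single 2 1 : Fin 3 → F) := by
      ext i
      fin_cases i <;> simp
    conv_lhs => rw [this]
    simp only [map_add, map_smul, smul_eq_mul]
    ring
  refine ⟨f (Pi.single 0 1), f (Pi.single 1 1), f (Pi.single 2 1), ?_, ?_⟩
  · by_contra hc
    push Not at hc
    apply hf
    apply LinearMap.ext
    intro v
    rw [hfv, hc.1, hc.2.1, hc.2.2]
    simp
  · intro v
    rw [heq, LinearMap.mem_ker, hfv]

theorem filter_disjSum {α β : Type} (s : Finset α) (t : Finset β) (p : α ⊕ β → Prop)
    [DecidablePred p] :
    #((s.disjSum t).filter p) =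
      #(s.filter fun a => p (.inl a)) + #(t.filter fun b => p (.inr b)) := by
  rw [← card_disjSum]
  congr 1
  ext x
  rcases x with a | b <;> simp

theorem Att.proj {k m : ℕ} (h : Att F k m) :
    ∃ S : Set (Projectivization F (Fin 3 → F)), S.ncard = m ∧
      ∀ W : Submodule F (Fin 3 → F), Module.finrank F W = 2 →
        (S ∩ {p : Projectivization F (Fin 3 → F) | p.submodule ≤ W}).ncard ≠ k := by
  classical
  obtain ⟨T, U, e, ⟨he, h1, h2, h3⟩, hm⟩ := h
  set E : Finset Unit := if e = 1 then univ else ∅ with hE
  have hEc : #E = e := by
    rw [hE]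
    split_ifs with h
    · simp [h]
    · simp
      omega
  set X : Finset ((F × F) ⊕ F ⊕ Unit) := T.disjSum (U.disjSum E) with hX
  refine ⟨emb '' (X : Set _), ?_, ?_⟩
  · rw [Set.ncard_image_of_injective _ emb_inj, Set.ncard_coe_finset, hX, card_disjSum,
      card_disjSum, hEc]
    omega
  · intro W hW
    obtain ⟨a, b, c, habc, hmem⟩ := exists_eqn W hW
    have hS : (emb '' (X : Set _) ∩ {p : Projectivization F (Fin 3 → F) | p.submodule ≤ W}) =
        emb '' ((X.filter fun t => vec t ∈ W : Finset _) : Set _) := by
      ext p
      simp only [Set.mem_inter_iff, Set.mem_image, mem_coe, Set.mem_ofPred_eq, mem_filter]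
      constructor
      · rintro ⟨⟨t, ht, rfl⟩, hp⟩
        refine ⟨t, ⟨ht, ?_⟩, rfl⟩
        simpa [emb, Projectivization.submodule_mk, Submodule.span_singleton_le_iff_mem] using hp
      · rintro ⟨t, ⟨ht, hp⟩, rfl⟩
        refine ⟨⟨t, ht, rfl⟩, ?_⟩
        simpa [emb, Projectivization.submodule_mk, Submodule.span_singleton_le_iff_mem] using hp
    rw [hS, Set.ncard_image_of_injective _ emb_inj, Set.ncard_coe_finset, hX, filter_disjSum,
      filter_disjSum]
    have m1 : ∀ p : F × F, vec (.inl p) ∈ W ↔ a * p.1 + b * p.2 + c = 0 := by
      intro p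
      rw [hmem]
      simp [vec]
    have m2 : ∀ w : F, vec (.inr (.inl w)) ∈ W ↔ a + b * w = 0 := by
      intro w
      rw [hmem]
      simp [vec]
    have m3 : ∀ u : Unit, vec (F := F) (.inr (.inr u)) ∈ W ↔ b = 0 := by
      intro w
      rw [hmem]
      simp [vec]
    simp only [m1, m2, m3]
    by_cases hb : b = 0
    · by_cases ha : a = 0
      · have hc : c ≠ 0 := by tauto
        simp only [ha, hb, zero_mul, zero_add, hc, filter_false, card_empty, filter_true, hEc]
        exact h3
      · have e1 : #(T.filter fun p => a * p.1 + b * p.2 + c = 0) =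
            #(univ.filter fun y => (-c / a, y) ∈ T) := by
          symm
          apply card_bij (fun y _ => (-c / a, y))
          · intro y hy
            simp only [mem_filter, mem_univ, true_and] at hy ⊢
            refine ⟨hy, ?_⟩
            rw [hb]
            field_simp
            ring
          · intro y _ y' _ h
            exact (Prod.ext_iff.1 h).2
          · intro p hp
            simp only [mem_filter, hb, zero_mul, add_zero] at hp
            have : -c / a = p.1 := by
              field_simp
              linear_combination -hp.2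
            refine ⟨p.2, ?_, ?_⟩
            · simp only [mem_filter, mem_univ, true_and, this]
              exact hp.1
            · rw [this]
        rw [e1]
        simp only [hb, zero_mul, add_zero, ha, filter_false, card_empty, filter_true, hEc,
          zero_add]
        exact h2 _
    · have e1 : #(T.filter fun p => a * p.1 + b * p.2 + c = 0) =
          #(univ.filter fun x => (x, (-a / b) * x + (-c / b)) ∈ T) := by
        symm
        apply card_bij (fun x _ => (x, (-a / b) * x + (-c / b)))
        · intro x hx
          simp only [mem_filter, mem_univ, true_and] at hx ⊢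
          refine ⟨hx, ?_⟩
          field_simp
          ring
        · intro y _ y' _ h
          exact (Prod.ext_iff.1 h).1
        · intro p hp
          simp only [mem_filter] at hp
          have : (-a / b) * p.1 + (-c / b) = p.2 := by
            field_simp
            linear_combination -hp.2
          refine ⟨p.1, ?_, ?_⟩
          · simp only [mem_filter, mem_univ, true_and, this]
            exact hp.1
          · rw [this]
      have e2 : #(U.filter fun w => a + b * w = 0) = if -a / b ∈ U then 1 else 0 := by
        have : ∀ w, a + b * w = 0 ↔ w = -a / b := by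
          intro w
          constructor
          · intro h
            field_simp
            linear_combination h
          · intro h
            rw [h]
            field_simp
            ring
        simp only [this]
        rw [filter_eq']
        split_ifs <;> simp
      rw [e1, e2]
      simp only [hb, filter_false, card_empty, add_zero]
      exact h1 _ _

end Pool.Agent.H458Z.Sec
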