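import Pool.Agent.H458Z.Sec.Gad

/-!
# The gap set in characteristic two
-/

set_option autoImplicit false

namespace Pool.Agent.H458Z.Sec

open Finset

variable {F : Type} [Field F] [Fintype F] [DecidableEq F]

theorem cut_values {i j : ℕ} (h : i + j = 39) : i * j ≤ 368 ∨ 374 ≤ i * j := by
  have hi : i ≤ 39 := by omega
  obtain rfl : j = 39 - i := by omega
  interval_cases i <;> simp

theorem cut_small {i j : ℕ} (h : i + j ≤ 38) : i * j ≤ 361 := by
  nlinarith [sq_nonneg ((i : ℤ) - j), Nat.mul_le_mul h h]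

theorem exists_sidon (h2 : (2 : F) = 0) : ∀ n, n ^ 3 < Fintype.card F → ∃ V : Finset F, #V = n ∧
    ∀ s ∈ V, ∀ t ∈ V, ∀ s' ∈ V, ∀ t' ∈ V, s + t = s' + t' →
      s = t ∨ (s = s' ∧ t = t') ∨ (s = t' ∧ t = s') := by
  intro n
  induction n with
  | zero => exact fun _ => ⟨∅, rfl, by simp⟩
  | succ n ih =>
    intro hn
    have hn' : n ^ 3 < Fintype.card F :=
      lt_of_le_of_lt (Nat.pow_le_pow_left (by omega) 3) hn
    obtain ⟨V, hV, hS⟩ := ih hn'
    obtain ⟨z, hz⟩ : ∃ z, z ∉ (V ×ˢ V ×ˢ V).image fun p => p.1 + p.2.1 + p.2.2 := by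
      by_contra hc
      push Not at hc
      have h4 := card_le_card (show univ ⊆ _ from fun z _ => hc z)
      have h5 := card_image_le (s := V ×ˢ V ×ˢ V) (f := fun p => p.1 + p.2.1 + p.2.2)
      simp only [card_product, hV, card_univ] at h4 h5
      have : n * (n * n) = n ^ 3 := by ring
      omega
    have hz' : ∀ a ∈ V, ∀ b ∈ V, ∀ c ∈ V, z ≠ a + b + c := by
      intro a ha b hb c hc h
      exact hz (mem_image.2 ⟨(a, b, c), by simp [ha, hb, hc], h.symm⟩)
    have hzV : z ∉ V := fun h => hz' z h z h z h (by linear_combination -z * h2)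
    refine ⟨insert z V, by rw [card_insert_of_notMem hzV, hV], ?_⟩
    intro s hs t ht s' hs' t' ht' h
    by_cases e1 : s = t
    · exact Or.inl e1
    by_cases e2 : s = s'
    · exact Or.inr (Or.inl ⟨e2, by linear_combination h - e2⟩)
    by_cases e3 : s = t'
    · exact Or.inr (Or.inr ⟨e3, by linear_combination h - e3⟩)
    have e4 : t ≠ s' := fun e => e3 (by linear_combination h - e)
    have e5 : t ≠ t' := fun e => e2 (by linear_combination h - e)
    have e6 : s' ≠ t' := fun e => e1 (by linear_combination h + e + (t' - t) * h2)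
    rw [mem_insert] at hs ht hs' ht'
    rcases hs with rfl | hs
    · exact absurd (by linear_combination h - t * h2)
        (hz' t (ht.resolve_left (Ne.symm e1)) s' (hs'.resolve_left (Ne.symm e2)) t'
          (ht'.resolve_left (Ne.symm e3)))
    rcases ht with rfl | ht
    · exact absurd (by linear_combination h - s * h2)
        (hz' s hs s' (hs'.resolve_left (Ne.symm e4)) t' (ht'.resolve_left (Ne.symm e5)))
    rcases hs' with rfl | hs'
    · exact absurd (by linear_combination -h - t' * h2)
        (hz' s hs t ht t' (ht'.resolve_left (Ne.symm e6)))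
    rcases ht' with rfl | ht'
    · exact absurd (by linear_combination -h - s' * h2) (hz' s hs t ht s' hs')
    exact hS s hs t ht s' hs' t' ht' h

omit [DecidableEq F] in
theorem exists_half (h2 : ringChar F = 2) : ∃ τ : F →+ ZMod 2,
    ∀ x : F, x ≠ 0 → 2 * #(univ.filter fun y => τ (x * y) = 1) = Fintype.card F := by
  have : CharP F 2 := h2 ▸ ringChar.charP F
  let _ : Algebra (ZMod 2) F := ZMod.algebra F 2
  obtain ⟨f, hf⟩ := Module.Projective.exists_dual_eq_one (ZMod 2) (one_ne_zero (α := F))
  refine ⟨f.toAddMonoidHom, ?_⟩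
  intro x hx
  have hz : ∀ a : ZMod 2, ¬ a = 1 ↔ a + 1 = 1 := by decide
  have hz' : ∀ a : ZMod 2, a = 1 → ¬ a + 1 = 1 := by decide
  have h1 := card_filter_add_card_filter_not (s := (univ : Finset F)) (fun y => f (x * y) = 1)
  have e : ∀ y, f (x * (y + x⁻¹)) = f (x * y) + 1 := by
    intro y
    rw [mul_add, map_add, mul_inv_cancel₀ hx, hf]
  have h3 : #(univ.filter fun y => ¬ f (x * y) = 1) ≤ #(univ.filter fun y => f (x * y) = 1) := by
    apply card_le_card_of_injOn (fun y => y + x⁻¹)
    · intro y hy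
      simp only [coe_filter, mem_univ, true_and, Set.mem_ofPred_eq] at hy ⊢
      rw [e]
      exact (hz _).1 hy
    · intro y _ y' _ h
      exact add_right_cancel h
  have h4 : #(univ.filter fun y => f (x * y) = 1) ≤ #(univ.filter fun y => ¬ f (x * y) = 1) := by
    apply card_le_card_of_injOn (fun y => y + x⁻¹)
    · intro y hy
      simp only [coe_filter, mem_univ, true_and, Set.mem_ofPred_eq] at hy ⊢
      rw [e]
      exact hz' _ hy
    · intro y _ y' _ h
      exact add_right_cancel h
  change 2 * #(univ.filter fun y => f (x * y) = 1) = _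
  rw [card_univ] at h1
  omega

theorem gadget_even (h2 : ringChar F = 2) {L : ℕ} (hL : 1482 ≤ L) (hq : 39 ^ 3 < Fintype.card F) :
    Gadget F L := by
  have two : (2 : F) = 0 := by
    have := ringChar.Nat.cast_ringChar (R := F)
    rw [h2] at this
    exact_mod_cast this
  obtain ⟨τ, hτ⟩ := exists_half h2
  obtain ⟨V, hV, hS⟩ := exists_sidon two 39 hq
  set S : Finset F := V.offDiag.image fun p => p.1 + p.2 with hSdef
  have hS0 : ∀ x ∈ S, x ≠ 0 := by
    intro x hx h0
    obtain ⟨p, hp, rfl⟩ := mem_image.1 hx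
    exact (mem_offDiag.1 hp).2.2 (by linear_combination h0 - p.2 * two)
  have hSc : #S = 741 := by
    have h1 := card_eq_sum_card_image (fun p : F × F => p.1 + p.2) V.offDiag
    rw [offDiag_card, hV, ← hSdef, sum_const_nat (m := 2)] at h1
    · omega
    · intro x hx
      obtain ⟨⟨s, t⟩, hp, rfl⟩ := mem_image.1 hx
      obtain ⟨hs, ht, hst⟩ := mem_offDiag.1 hp
      rw [card_eq_two]
      refine ⟨(s, t), (t, s), fun h => hst (Prod.ext_iff.1 h).1, ?_⟩
      ext ⟨s', t'⟩
      simp only [mem_filter, mem_offDiag, mem_insert, mem_singleton, Prod.mk.injEq]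
      constructor
      · rintro ⟨⟨hs', ht', hst'⟩, h⟩
        exact (hS s' hs' t' ht' s hs t ht h).resolve_left hst'
      · rintro (⟨rfl, rfl⟩ | ⟨rfl, rfl⟩)
        · exact ⟨⟨hs, ht, hst⟩, rfl⟩
        · exact ⟨⟨ht, hs, Ne.symm hst⟩, add_comm _ _⟩
  set T : Finset (F × F) := univ.filter fun p => p.1 ∈ S ∧ τ (p.1 * p.2) = 1 with hT
  have hmem : ∀ x y, (x, y) ∈ T ↔ x ∈ S ∧ τ (x * y) = 1 := by
    intro x y
    simp only [hT, mem_filter, mem_univ, true_and]
  have hvc : ∀ u, 2 * vc T u = if u ∈ S then Fintype.card F else 0 := by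
    intro u
    unfold vc
    split_ifs with h
    · rw [← hτ u (hS0 u h)]
      simp only [hmem, h, true_and]
    · simp [hmem, h]
  have hTc : 2 * #T = 741 * Fintype.card F := by
    have : #T = ∑ u, vc T u := by
      unfold vc
      simp only [card_filter]
      rw [← Fintype.sum_prod_type (f := fun p : F × F => if (p.1, p.2) ∈ T then 1 else 0)]
      simp
    rw [this, mul_sum]
    simp only [hvc]
    rw [← sum_filter, sum_const_nat (fun _ _ => rfl)]
    simp [hSc]
  refine ⟨T, Sᶜ, ∅, ?_, ?_, ?_, by simp, ?_, hTc.le, by omega⟩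
  · intro μ ν _
    set φ : F → ZMod 2 := fun s => τ (μ * s ^ 2 + ν * s) with hφ
    have key : ∀ s t, τ ((s + t) * (μ * (s + t) + ν)) = φ s + φ t := by
      intro s t
      rw [hφ, ← map_add]
      congr 1
      linear_combination μ * s * t * two
    have hz1 : ∀ a b : ZMod 2, a + b = 1 → (a = 1 ∧ ¬ b = 1) ∨ (b = 1 ∧ ¬ a = 1) := by decide
    have hz2 : ∀ a b : ZMod 2, a = 1 → ¬ b = 1 → a + b = 1 := by decide
    have e : lc T μ ν = #(V.filter fun s => φ s = 1) * #(V.filter fun s => ¬ φ s = 1) := by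
      rw [← card_product]
      unfold lc
      symm
      apply card_bij (fun p _ => p.1 + p.2)
      · rintro ⟨s, t⟩ hp
        simp only [mem_product, mem_filter] at hp
        simp only [mem_filter, mem_univ, true_and, hmem, key]
        refine ⟨mem_image.2 ⟨(s, t), mem_offDiag.2 ⟨hp.1.1, hp.2.1, ?_⟩, rfl⟩,
          hz2 _ _ hp.1.2 hp.2.2⟩
        intro h
        dsimp only at h
        subst h
        exact hp.2.2 hp.1.2
      · rintro ⟨s, t⟩ hp ⟨s', t'⟩ hp' h
        simp only [mem_product, mem_filter] at hp hp'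
        rcases hS s hp.1.1 t hp.2.1 s' hp'.1.1 t' hp'.2.1 h with h | h | h
        · subst h
          exact absurd hp.1.2 hp.2.2
        · rw [h.1, h.2]
        · rw [h.1] at hp
          exact absurd hp.1.2 hp'.2.2
      · intro x hx
        simp only [mem_filter, mem_univ, true_and, hmem] at hx
        obtain ⟨⟨s, t⟩, hp, rfl⟩ := mem_image.1 hx.1
        obtain ⟨hs, ht, -⟩ := mem_offDiag.1 hp
        have h := hx.2
        dsimp only at h hs ht
        rw [key] at h
        rcases hz1 _ _ h with h | h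
        · exact ⟨(s, t), by simp [hs, ht, h.1, h.2], rfl⟩
        · exact ⟨(t, s), by simp [hs, ht, h.1, h.2], add_comm _ _⟩
    have hsum := card_filter_add_card_filter_not (s := V) (fun s => φ s = 1)
    have := cut_values (hsum.trans hV)
    omega
  · intro c hc y hy
    exact mem_compl.1 hc ((hmem c y).1 hy).1
  · intro u
    have := hvc u
    split_ifs at this <;> omega
  · rw [card_compl, hSc]
    have : 1482 * (Fintype.card F - 741 + 1) ≤ L * (Fintype.card F - 741 + 1) :=
      Nat.mul_le_mul_right _ hL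
    omega

end Pool.Agent.H458Z.Sec
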