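import Pool.Agent.H458Z.Sec.Defs

/-!
# Building avoiding sets from a set whose secant sizes have a gap
-/

set_option autoImplicit false

namespace Pool.Agent.H458Z.Sec

open Finset

variable {F : Type} [Field F] [Fintype F] [DecidableEq F]

/-- The number of points of `T` on the line `y = μ x + ν`. -/
def lc (T : Finset (F × F)) (μ ν : F) : ℕ := #(univ.filter fun x => (x, μ * x + ν) ∈ T)

/-- The number of points of `T` on the line `x = u`. -/
def vc (T : Finset (F × F)) (u : F) : ℕ := #(univ.filter fun y => (u, y) ∈ T)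

/-- Add the points `(c, y)` with `y ∈ Y`. -/
def addV (T : Finset (F × F)) (c : F) (Y : Finset F) : Finset (F × F) :=
  T ∪ Y.image fun y => (c, y)

omit [Field F] [Fintype F] in
theorem mem_addV (T : Finset (F × F)) (c : F) (Y : Finset F) (x y : F) :
    (x, y) ∈ addV T c Y ↔ (x, y) ∈ T ∨ (x = c ∧ y ∈ Y) := by
  simp only [addV, mem_union, mem_image, Prod.mk.injEq]
  constructor
  · rintro (h | ⟨z, hz, rfl, rfl⟩)
    · exact Or.inl h
    · exact Or.inr ⟨rfl, hz⟩
  · rintro (h | ⟨rfl, h⟩)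
    · exact Or.inl h
    · exact Or.inr ⟨y, h, rfl, rfl⟩

omit [Field F] [Fintype F] in
theorem card_addV (T : Finset (F × F)) (c : F) (Y : Finset F) (hc : ∀ y, (c, y) ∉ T) :
    #(addV T c Y) = #T + #Y := by
  rw [addV, card_union_of_disjoint, card_image_of_injective]
  · intro y y' h
    exact (Prod.ext_iff.1 h).2
  · rw [disjoint_right]
    intro p hp
    obtain ⟨y, _, rfl⟩ := mem_image.1 hp
    exact hc y

theorem lc_addV (T : Finset (F × F)) (c : F) (Y : Finset F) (hc : ∀ y, (c, y) ∉ T) (μ ν : F) :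
    lc (addV T c Y) μ ν = lc T μ ν + if μ * c + ν ∈ Y then 1 else 0 := by
  unfold lc
  split_ifs with h
  · rw [← card_insert_of_notMem (a := c) (by simp [hc])]
    congr 1
    ext x
    simp only [mem_filter, mem_univ, true_and, mem_addV, mem_insert]
    constructor
    · rintro (h1 | h1)
      · exact Or.inr h1
      · exact Or.inl h1.1
    · rintro (rfl | h1)
      · exact Or.inr ⟨rfl, h⟩
      · exact Or.inl h1
  · rw [add_zero]
    congr 1
    ext x
    simp only [mem_filter, mem_univ, true_and, mem_addV]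
    constructor
    · rintro (h1 | ⟨rfl, h1⟩)
      · exact h1
      · exact absurd h1 h
    · exact Or.inl

omit [Field F] in
theorem vc_addV (T : Finset (F × F)) (c : F) (Y : Finset F) (hc : ∀ y, (c, y) ∉ T) (u : F) :
    vc (addV T c Y) u = if u = c then #Y else vc T u := by
  unfold vc
  split_ifs with h
  · subst h
    congr 1
    ext y
    simp [mem_addV, hc]
  · congr 1
    ext y
    simp [mem_addV, h]

/-- Outside the exceptional lines `E` the secant sizes of `T` are at most `a` or at least `a'`; the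
vertical lines over `X` miss `T`; no vertical line is a `k`-secant. -/
def Good (T : Finset (F × F)) (X : Finset F) (E : Finset (F × F)) (a a' k : ℕ) : Prop :=
  (∀ μ ν, (μ, ν) ∉ E → lc T μ ν ≤ a ∨ a' ≤ lc T μ ν) ∧ (∀ c ∈ X, ∀ y, (c, y) ∉ T) ∧
    ∀ u, vc T u ≠ k

theorem Good.add {T : Finset (F × F)} {X : Finset F} {E : Finset (F × F)} {a a' k : ℕ}
    (h : Good T X E a a' k) {c : F} (hc : c ∈ X) (Y : Finset F) (hY : #Y ≠ k) :
    Good (addV T c Y) (X.erase c) E (a + 1) (a' + if Y = univ then 1 else 0) k := by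
  obtain ⟨h1, h2, h3⟩ := h
  refine ⟨?_, ?_, ?_⟩
  · intro μ ν hE
    rw [lc_addV T c Y (h2 c hc)]
    have := h1 μ ν hE
    by_cases hu : Y = univ
    · simp only [hu, mem_univ, if_true]
      omega
    · simp only [hu, if_false]
      split_ifs <;> omega
  · intro d hd y
    rw [mem_addV]
    rintro (h | h)
    · exact h2 d (mem_of_mem_erase hd) y h
    · exact (mem_erase.1 hd).1 h.1
  · intro u
    rw [vc_addV T c Y (h2 c hc)]
    split_ifs
    · exact hY
    · exact h3 u

theorem Good.add_full {T : Finset (F × F)} {X : Finset F} {E : Finset (F × F)} {a a' k : ℕ}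
    (h : Good T X E a a' k) (hk : Fintype.card F ≠ k) : ∀ b, b ≤ #X →
      ∃ (T' : Finset (F × F)) (X' : Finset F), Good T' X' E (a + b) (a' + b) k ∧
        #T' = #T + b * Fintype.card F ∧ #X' + b = #X := by
  intro b
  induction b with
  | zero => exact fun _ => ⟨T, X, h, by simp, by simp⟩
  | succ b ih =>
    intro hb
    obtain ⟨T', X', hG, hT, hX⟩ := ih (by omega)
    obtain ⟨c, hc⟩ : X'.Nonempty := card_pos.1 (by omega)
    have := hG.add hc univ (by simpa using hk)
    refine ⟨_, _, by simpa [add_assoc] using this, ?_, ?_⟩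
    · rw [card_addV _ _ _ (hG.2.1 c hc), hT, card_univ]
      ring
    · have := card_erase_add_one hc
      omega

theorem Good.add_part {T : Finset (F × F)} {X : Finset F} {E : Finset (F × F)} {a a' k : ℕ}
    (h : Good T X E a a' k) (hX : 1 ≤ #X) {r : ℕ} (hr : r ≤ Fintype.card F) (hrk : r ≠ k) :
      ∃ (T' : Finset (F × F)) (X' : Finset F), Good T' X' E (a + 1) a' k ∧
        #T' = #T + r ∧ #X' + 1 = #X := by
  obtain ⟨c, hc⟩ : X.Nonempty := card_pos.1 (by omega)
  obtain ⟨Y, _, hY⟩ := exists_subset_card_eq (s := (univ : Finset F)) (n := r) (by simpa using hr)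
  obtain ⟨h1, h2, h3⟩ := h.add hc Y (by omega)
  refine ⟨addV T c Y, X.erase c, ⟨?_, h2, h3⟩, ?_, card_erase_add_one hc⟩
  · intro μ ν hE
    have := h1 μ ν hE
    omega
  · rw [card_addV _ _ _ (h.2.1 c hc), hY]

theorem Good.att {T : Finset (F × F)} {X : Finset F} {E : Finset (F × F)} {a a' k : ℕ}
    (h : Good T X E a a' k) (hX : #E * #E < #X) (ha : a + 1 < k) (ha' : k < a') {r : ℕ}
    (hr1 : #E ≤ r) (hr2 : r + #E ≤ Fintype.card F) (hrk : r ≠ k) : Att F k (#T + r) := by
  obtain ⟨h1, h2, h3⟩ := h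
  obtain ⟨c, hc, hcb⟩ : ∃ c ∈ X,
      c ∉ (E ×ˢ E).image fun p => (p.2.2 - p.1.2) / (p.1.1 - p.2.1) := by
    by_contra hcon
    push Not at hcon
    have h4 := card_le_card (show X ⊆ _ from hcon)
    have h5 := card_image_le (s := E ×ˢ E) (f := fun p => (p.2.2 - p.1.2) / (p.1.1 - p.2.1))
    rw [card_product] at h5
    omega
  have hinj : ∀ p ∈ E, ∀ p' ∈ E, p.1 * c + p.2 = p'.1 * c + p'.2 → p = p' := by
    intro p hp p' hp' he
    by_cases hμ : p.1 = p'.1
    · rw [hμ] at he
      exact Prod.ext hμ (add_left_cancel he)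
    · exfalso
      apply hcb
      refine mem_image.2 ⟨(p, p'), mem_product.2 ⟨hp, hp'⟩, ?_⟩
      have : p.1 - p'.1 ≠ 0 := sub_ne_zero.2 hμ
      dsimp only
      field_simp
      linear_combination -he
  set I : Finset F := (E.filter fun p => lc T p.1 p.2 = k).image fun p => p.1 * c + p.2 with hI
  set O : Finset F := (E.filter fun p => lc T p.1 p.2 ≠ k).image fun p => p.1 * c + p.2 with hO
  have hIc : #I ≤ #E := card_image_le.trans (card_filter_le _ _)
  have hOc : #O ≤ #E := card_image_le.trans (card_filter_le _ _)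
  have hIO : I ⊆ Oᶜ := by
    intro y hy
    rw [mem_compl]
    intro hy'
    obtain ⟨p, hp, rfl⟩ := mem_image.1 hy
    obtain ⟨p', hp', he⟩ := mem_image.1 hy'
    rw [mem_filter] at hp hp'
    have := hinj _ hp'.1 _ hp.1 he
    rw [this] at hp'
    exact hp'.2 hp.2
  obtain ⟨Y, hIY, hYO, hY⟩ := exists_subsuperset_card_eq hIO (n := r) (by omega)
    (by rw [card_compl]; omega)
  refine ⟨addV T c Y, ∅, 0, ⟨by omega, ?_, ?_, ?_⟩, ?_⟩
  · intro μ ν
    change lc (addV T c Y) μ ν + _ ≠ k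
    rw [lc_addV T c Y (h2 c hc)]
    simp only [notMem_empty, if_false, add_zero]
    by_cases hE : (μ, ν) ∈ E
    · by_cases hk : lc T μ ν = k
      · rw [if_pos (hIY (mem_image.2 ⟨(μ, ν), mem_filter.2 ⟨hE, hk⟩, rfl⟩))]
        omega
      · rw [if_neg]
        · omega
        · intro hy
          exact mem_compl.1 (hYO hy) (mem_image.2 ⟨(μ, ν), mem_filter.2 ⟨hE, hk⟩, rfl⟩)
    · have := h1 μ ν hE
      split_ifs <;> omega
  · intro u
    change vc (addV T c Y) u + 0 ≠ k
    rw [vc_addV T c Y (h2 c hc), add_zero]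
    split_ifs
    · omega
    · exact h3 u
  · simp
    omega
  · rw [card_addV _ _ _ (h2 c hc), hY]
    simp

/-- A set of about `370.5 q` affine points whose secant sizes miss `369, ..., 372`. -/
def Gadget (F : Type) [Field F] [Fintype F] [DecidableEq F] (L : ℕ) : Prop :=
  ∃ (T : Finset (F × F)) (X : Finset F) (E : Finset (F × F)),
    (∀ μ ν, (μ, ν) ∉ E → lc T μ ν ≤ 368 ∨ 373 ≤ lc T μ ν) ∧ (∀ c ∈ X, ∀ y, (c, y) ∉ T) ∧
    (∀ u, vc T u ≤ 1521 ∨ Fintype.card F ≤ 2 * vc T u) ∧ #E ≤ L ∧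
    Fintype.card F ≤ L * (#X + 1) ∧ 2 * #T ≤ 741 * Fintype.card F ∧
    741 * Fintype.card F ≤ 2 * #T + L

theorem Gadget.att {L k m : ℕ} (h : Gadget F L) (hk : 1521 < k)
    (hq : k * (L ^ 3 + 30 * L + 30) ≤ Fintype.card F)
    (h1 : (k - 1) * Fintype.card F ≤ m) (h2 : m ≤ (k + 1) * Fintype.card F) : Att F k m := by
  obtain ⟨T, X, E, g1, g2, g3, g4, g5, g6, g7⟩ := h
  obtain ⟨b, rfl⟩ : ∃ b, k = b + 372 := ⟨k - 372, by omega⟩
  have hq1 : 30 * (b + 372) + 30 * L ≤ Fintype.card F := by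
    refine le_trans ?_ hq
    nlinarith [Nat.zero_le (L ^ 3), Nat.zero_le L, Nat.zero_le (b * L), Nat.zero_le (b * L ^ 3)]
  have hX : b + 2 + L * L < #X := by
    by_contra hc
    have e1 : L * (#X + 1) ≤ L * (b + 3 + L * L) := Nat.mul_le_mul_left _ (by omega)
    have e2 : L * (b + 3 + L * L) < (b + 372) * (L ^ 3 + 30 * L + 30) := by
      nlinarith [Nat.zero_le (L ^ 3), Nat.zero_le L, Nat.zero_le (b * L), Nat.zero_le (b * L ^ 3)]
    omega
  have hG : Good T X E 368 373 (b + 372) := ⟨g1, g2, fun u => by have := g3 u; omega⟩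
  obtain ⟨T1, X1, hG1, hT1, hX1⟩ := hG.add_full (by omega) b (by omega)
  have e1 : (b + 372 - 1) * Fintype.card F = b * Fintype.card F + 371 * Fintype.card F := by
    rw [← add_mul]
    congr 1
  have e2 : (b + 372 + 1) * Fintype.card F = b * Fintype.card F + 373 * Fintype.card F := by ring
  obtain ⟨D, hD⟩ : ∃ D, m = #T1 + D := ⟨m - #T1, by omega⟩
  obtain ⟨T2, X2, hG2, hT2, hX2⟩ := hG1.add_part (by omega) (r := D / 3) (by omega) (by omega)
  obtain ⟨T3, X3, hG3, hT3, hX3⟩ := hG2.add_part (by omega) (r := D / 3) (by omega) (by omega)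
  have hE : #E * #E ≤ L * L := Nat.mul_le_mul g4 g4
  have := hG3.att (by omega) (by omega) (by omega) (r := D - 2 * (D / 3)) (by omega) (by omega)
    (by omega)
  have e3 : #T3 + (D - 2 * (D / 3)) = m := by omega
  rwa [e3] at this

end Pool.Agent.H458Z.Sec
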