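import Pool.Agent.H458Z.Sec.Defs

/-!
# Sums modulo two of lines taken from three pencils whose centres form a triangle
-/

set_option autoImplicit false

namespace Pool.Agent.H458Z.Sec

open Finset

variable {F : Type} [Field F] [Fintype F] [DecidableEq F]

/-- The indicator of a proposition. -/
def ind (P : Prop) [Decidable P] : ℤ := if P then 1 else 0

theorem card_eq_sum_ind {α : Type} (s : Finset α) (p : α → Prop) [DecidablePred p] :
    (#(s.filter p) : ℤ) = ∑ x ∈ s, ind (p x) := by
  simp [ind]

/-- An odd number of three propositions holds. -/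
def Odd3 (a b c : Prop) : Prop := (a ∧ ¬ b ∧ ¬ c) ∨ (¬ a ∧ b ∧ ¬ c) ∨ (¬ a ∧ ¬ b ∧ c) ∨ (a ∧ b ∧ c)

instance (a b c : Prop) [Decidable a] [Decidable b] [Decidable c] : Decidable (Odd3 a b c) := by
  unfold Odd3
  infer_instance

theorem Odd3.not1 {a b c : Prop} (h : Odd3 a b c) (h' : ¬ a) : b ∨ c := by
  unfold Odd3 at h
  tauto

theorem Odd3.not2 {a b c : Prop} (h : Odd3 a b c) (h' : ¬ b) : a ∨ c := by
  unfold Odd3 at h
  tauto

theorem Odd3.not3 {a b c : Prop} (h : Odd3 a b c) (h' : ¬ c) : a ∨ b := by
  unfold Odd3 at h
  tauto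

theorem odd3_of1 {a : Prop} (b c d : Prop) (h' : a) : (Odd3 a b c ∨ d) ∨ b ∨ c := by
  unfold Odd3
  tauto

theorem odd3_of2 {b : Prop} (a c d : Prop) (h' : b) : (Odd3 a b c ∨ d) ∨ a ∨ c := by
  unfold Odd3
  tauto

theorem odd3_of3 {c : Prop} (a b d e : Prop) (h' : c) : (Odd3 a b c ∨ d) ∨ (a ∨ e) ∨ b := by
  unfold Odd3
  tauto

theorem ind_odd3 (a b c : Prop) [Decidable a] [Decidable b] [Decidable c] :
    ind (Odd3 a b c) = ind a + ind b + ind c - 2 * (ind a * ind b) - 2 * (ind a * ind c) -
      2 * (ind b * ind c) + 4 * ind (a ∧ b ∧ c) := by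
  by_cases ha : a <;> by_cases hb : b <;> by_cases hc : c <;> simp [ind, Odd3, ha, hb, hc]

theorem card_odd3_parity {α : Type} (s : Finset α) (a b c : α → Prop) [DecidablePred a]
    [DecidablePred b] [DecidablePred c] :
    #(s.filter fun x => Odd3 (a x) (b x) (c x)) % 2 =
      (#(s.filter a) + #(s.filter b) + #(s.filter c)) % 2 := by
  have h : (#(s.filter fun x => Odd3 (a x) (b x) (c x)) : ℤ) =
      #(s.filter a) + #(s.filter b) + #(s.filter c) - 2 * ∑ x ∈ s, ind (a x) * ind (b x) -
        2 * ∑ x ∈ s, ind (a x) * ind (c x) - 2 * ∑ x ∈ s, ind (b x) * ind (c x) +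
        4 * ∑ x ∈ s, ind (a x ∧ b x ∧ c x) := by
    simp only [card_eq_sum_ind, ind_odd3, sum_add_distrib, sum_sub_distrib, mul_sum]
  omega

/-- The affine points covered an odd number of times. -/
def triT (A B C : Finset F) : Finset (F × F) :=
  univ.filter fun p => Odd3 (p.1 ∈ A) (p.2 ∈ B) (p.2 / p.1 ∈ C)

theorem mem_triT (A B C : Finset F) (x y : F) :
    (x, y) ∈ triT A B C ↔ Odd3 (x ∈ A) (y ∈ B) (y / x ∈ C) := by
  simp only [triT, mem_filter, mem_univ, true_and]

/-- The affine points covered three times. -/
def triple (A B C : Finset F) : ℕ :=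
  #(univ.filter fun p : F × F => p.1 ∈ A ∧ p.2 ∈ B ∧ p.2 / p.1 ∈ C)

theorem card_div_right (C : Finset F) {x : F} (hx : x ≠ 0) :
    #(univ.filter fun y => y / x ∈ C) = #C := by
  apply card_bij (fun y _ => y / x)
  · intro y hy
    simpa using hy
  · intro y _ y' _ h
    exact (div_left_inj' hx).1 h
  · intro w hw
    refine ⟨w * x, ?_, ?_⟩ <;> simp [hx, hw]

theorem card_div_left (C : Finset F) {y : F} (μ : F) (hy : y ≠ 0) :
    #(univ.filter fun x => μ + y / x ∈ C) = #C := by
  apply card_bij (fun x _ => μ + y / x)
  · intro x hx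
    simpa using hx
  · intro x _ x' _ h
    have h1 : y / x = y / x' := add_left_cancel h
    rw [div_eq_mul_inv, div_eq_mul_inv] at h1
    exact inv_injective (mul_left_cancel₀ hy h1)
  · intro w hw
    have : μ + y / (y / (w - μ)) = w := by
      rw [div_div_cancel₀ hy]
      ring
    refine ⟨y / (w - μ), ?_, this⟩
    simp only [mem_filter, mem_univ, true_and, this, hw]

theorem card_affine (B : Finset F) {μ : F} (ν : F) (hμ : μ ≠ 0) :
    #(univ.filter fun x => μ * x + ν ∈ B) = #B := by
  apply card_bij (fun x _ => μ * x + ν)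
  · intro x hx
    simpa using hx
  · intro x _ x' _ h
    exact mul_left_cancel₀ hμ (add_right_cancel h)
  · intro w hw
    have : μ * ((w - ν) / μ) + ν = w := by
      field_simp
      ring
    refine ⟨(w - ν) / μ, ?_, this⟩
    simp only [mem_filter, mem_univ, true_and, this, hw]

theorem card_triT (A B C : Finset F) (hA : 0 ∉ A) (hB : 0 ∉ B) (hC : 0 ∉ C) :
    (#(triT A B C) : ℤ) + #C = Fintype.card F * (#A + #B + #C) -
      2 * (#A * #B + #A * #C + #B * #C) + 4 * triple A B C := by
  have sA : ∑ x : F, ind (x ∈ A) = #A := by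
    rw [← card_eq_sum_ind]
    simp
  have sB : ∑ x : F, ind (x ∈ B) = #B := by
    rw [← card_eq_sum_ind]
    simp
  have s1 : ∀ x : F, ∑ y : F, ind (y / x ∈ C) = #C - #C * ind (x = 0) := by
    intro x
    rw [← card_eq_sum_ind]
    by_cases hx : x = 0
    · simp [hx, ind, hC]
    · rw [card_div_right C hx]
      simp [hx, ind]
  have s2 : ∀ y : F, ∑ x : F, ind (y / x ∈ C) = #C - #C * ind (y = 0) := by
    intro y
    rw [← card_eq_sum_ind]
    by_cases hy : y = 0
    · simp [hy, ind, hC]
    · have := card_div_left C 0 hy
      simp only [zero_add] at this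
      rw [this]
      simp [hy, ind]
  have z0 : ∑ x : F, ind (x = 0) = 1 := by simp [ind]
  have zA : ∀ x : F, ind (x ∈ A) * ind (x = 0) = 0 := by
    intro x
    by_cases hx : x = 0 <;> simp [ind, hx, hA]
  have zB : ∀ x : F, ind (x ∈ B) * ind (x = 0) = 0 := by
    intro x
    by_cases hx : x = 0 <;> simp [ind, hx, hB]
  have t1 : ∑ p : F × F, ind (p.1 ∈ A) = Fintype.card F * #A := by
    rw [Fintype.sum_prod_type_right]
    simp [sA]
  have t2 : ∑ p : F × F, ind (p.2 ∈ B) = Fintype.card F * #B := by
    rw [Fintype.sum_prod_type]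
    simp [sB]
  have t3 : ∑ p : F × F, ind (p.2 / p.1 ∈ C) = Fintype.card F * #C - #C := by
    rw [Fintype.sum_prod_type]
    simp only [s1, sum_sub_distrib, ← mul_sum, z0]
    simp
  have t4 : ∑ p : F × F, ind (p.1 ∈ A) * ind (p.2 ∈ B) = #A * #B := by
    rw [Fintype.sum_prod_type, ← sA, ← sB, sum_mul_sum]
  have t5 : ∑ p : F × F, ind (p.1 ∈ A) * ind (p.2 / p.1 ∈ C) = #A * #C := by
    rw [Fintype.sum_prod_type, ← sA, sum_mul]
    apply sum_congr rfl
    intro x _
    change ∑ y, ind (x ∈ A) * ind (y / x ∈ C) = _
    rw [← mul_sum, s1]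
    linear_combination (-(#C : ℤ)) * zA x
  have t6 : ∑ p : F × F, ind (p.2 ∈ B) * ind (p.2 / p.1 ∈ C) = #B * #C := by
    rw [Fintype.sum_prod_type_right, ← sB, sum_mul]
    apply sum_congr rfl
    intro x _
    change ∑ y, ind (x ∈ B) * ind (x / y ∈ C) = _
    rw [← mul_sum, s2]
    linear_combination (-(#C : ℤ)) * zB x
  unfold triT triple
  rw [card_eq_sum_ind, card_eq_sum_ind]
  simp only [ind_odd3, sum_add_distrib, sum_sub_distrib, ← mul_sum, t1, t2, t3, t4, t5, t6]
  ring

omit [Field F] in
theorem card_le_three (p a b : F → Prop) [DecidablePred p] [DecidablePred a] [DecidablePred b]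
    (h : ∀ x, p x → a x ∨ b x) :
    #(univ.filter p) ≤ #(univ.filter a) + #(univ.filter b) := by
  refine le_trans (card_le_card ?_) (card_union_le _ _)
  intro x hx
  simp only [mem_filter, mem_univ, true_and, mem_union] at hx ⊢
  exact h x hx

omit [Field F] in
theorem card_ge_three (p a b : F → Prop) [DecidablePred p] [DecidablePred a] [DecidablePred b]
    (h : ∀ x, p x ∨ a x ∨ b x) :
    Fintype.card F ≤ #(univ.filter p) + (#(univ.filter a) + #(univ.filter b)) := by
  have h1 := card_filter_add_card_filter_not (s := (univ : Finset F)) p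
  have h2 := card_le_three (fun x => ¬ p x) a b (fun x hx => by have := h x; tauto)
  simp only [card_univ] at h1
  omega

theorem att_tri (A B C : Finset F) (hA : 0 ∉ A) (hB : 0 ∉ B) (hC : 0 ∉ C) {k : ℕ}
    (hpar : (#A + #B + #C) % 2 ≠ k % 2) (hAB : #A + #B + 3 ≤ k) (hAC : #A + #C + 3 ≤ k)
    (hBC : #B + #C + 3 ≤ k) (hk : 2 * k ≤ Fintype.card F + 1) {ε : ℕ} (hε : ε ≤ 3) :
    Att F k (#(triT A B C) + #C + ε) := by
  obtain ⟨Z, Y, e, hZ, hY, he, hsum⟩ : ∃ (Z : Finset (F × F)) (Y : Finset F) (e : ℕ),
      Z ⊆ {(0, 0)} ∧ Y ⊆ {0} ∧ e ≤ 1 ∧ #Z + #Y + e = ε := by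
    interval_cases ε
    · exact ⟨∅, ∅, 0, by simp, by simp, by simp, by simp⟩
    · exact ⟨∅, ∅, 1, by simp, by simp, by simp, by simp⟩
    · exact ⟨∅, {0}, 1, by simp, by simp, by simp, by simp⟩
    · exact ⟨{(0, 0)}, {0}, 1, by simp, by simp, by simp, by simp⟩
  have hZ' : ∀ x y : F, (x, y) ∈ Z → x = 0 ∧ y = 0 := by
    intro x y h
    simpa using hZ h
  have hY' : ∀ x : F, x ∈ Y → x = 0 := by
    intro x h
    simpa using hY h
  have cA : #(univ.filter fun x => x ∈ A) = #A := by simp
  have cB : #(univ.filter fun x => x ∈ B) = #B := by simp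
  have c0 : #(univ.filter fun x : F => x = 0) = 1 := by
    rw [filter_eq']
    simp
  have hi : ∀ μ : F, (if μ ∈ C ∪ Y then 1 else 0) ≤ 1 := by
    intro μ
    split_ifs <;> simp
  refine ⟨triT A B C ∪ Z, C ∪ Y, e, ⟨he, ?_, ?_, ?_⟩, ?_⟩
  · intro μ ν
    have hiμ := hi μ
    by_cases hμ : μ = 0
    · by_cases hν : ν = 0
      · have := card_le_three (fun x => (x, μ * x + ν) ∈ triT A B C ∪ Z) (fun x => x ∈ A)
          (fun x => x = 0) (by
            intro x hx
            rcases mem_union.1 hx with h | h
            · simp only [mem_triT, hμ, hν, zero_mul, add_zero, zero_div] at h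
              exact Or.inl ((h.not2 hB).resolve_right hC)
            · exact Or.inr (hZ' _ _ h).1)
        omega
      · have cC := card_div_left C 0 hν
        simp only [zero_add] at cC
        by_cases hνB : ν ∈ B
        · have := card_ge_three (fun x => (x, μ * x + ν) ∈ triT A B C ∪ Z) (fun x => x ∈ A)
            (fun x => ν / x ∈ C) (by
              intro x
              simp only [mem_triT, hμ, mem_union, zero_mul, zero_add]
              exact odd3_of2 _ _ _ hνB)
          omega
        · have := card_le_three (fun x => (x, μ * x + ν) ∈ triT A B C ∪ Z) (fun x => x ∈ A)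
            (fun x => ν / x ∈ C) (by
              intro x hx
              rcases mem_union.1 hx with h | h
              · simp only [mem_triT, hμ, zero_mul, zero_add] at h
                exact h.not2 hνB
              · have := (hZ' _ _ h).2
                simp [hμ, hν] at this)
          omega
    · have cB' := card_affine B ν hμ
      by_cases hν : ν = 0
      · by_cases hμC : μ ∈ C
        · have h1 := card_ge_three (fun x => (x, μ * x + ν) ∈ triT A B C ∪ Z)
            (fun x => x ∈ A ∨ x = 0) (fun x => μ * x + ν ∈ B) (by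
              intro x
              by_cases hx : x = 0
              · exact Or.inr (Or.inl (Or.inr hx))
              have : (μ * x + ν) / x = μ := by
                rw [hν]
                field_simp
                ring
              simp only [mem_triT, mem_union, this]
              exact odd3_of3 _ _ _ _ hμC)
          have h2 := card_le_three (fun x => x ∈ A ∨ x = 0) (fun x => x ∈ A) (fun x => x = 0)
            (fun _ h => h)
          omega
        · have h1 := card_le_three (fun x => (x, μ * x + ν) ∈ triT A B C ∪ Z)
            (fun x => x ∈ A ∨ x = 0) (fun x => μ * x + ν ∈ B) (by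
              intro x hx'
              by_cases hx : x = 0
              · exact Or.inl (Or.inr hx)
              have : (μ * x + ν) / x = μ := by
                rw [hν]
                field_simp
                ring
              rcases mem_union.1 hx' with h | h
              · simp only [mem_triT, this] at h
                exact (h.not3 hμC).imp_left Or.inl
              · exact absurd (hZ' _ _ h).1 hx)
          have h2 := card_le_three (fun x => x ∈ A ∨ x = 0) (fun x => x ∈ A) (fun x => x = 0)
            (fun _ h => h)
          omega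
      · have e1 : (univ.filter fun x => (x, μ * x + ν) ∈ triT A B C ∪ Z) =
            univ.filter fun x => Odd3 (x ∈ A) (μ * x + ν ∈ B) ((μ * x + ν) / x ∈ C) := by
          apply filter_congr
          intro x _
          simp only [mem_triT, mem_union]
          constructor
          · rintro (h | h)
            · exact h
            · obtain ⟨h1, h2⟩ := hZ' _ _ h
              simp [h1, hν] at h2
          · exact Or.inl
        have e2 := card_odd3_parity (univ : Finset F) (fun x => x ∈ A) (fun x => μ * x + ν ∈ B)
          (fun x => (μ * x + ν) / x ∈ C)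
        have e3 : #(univ.filter fun x => (μ * x + ν) / x ∈ C) + (if μ ∈ C ∪ Y then 1 else 0) =
            #C := by
          rw [← card_div_left C μ hν]
          have hsplit := card_filter_add_card_filter_not
            (s := univ.filter fun x => μ + ν / x ∈ C) (fun x => x = 0)
          rw [← hsplit, add_comm]
          congr 1
          · by_cases hμC : μ ∈ C
            · rw [if_pos (mem_union_left _ hμC), filter_eq']
              simp [hμC]
            · rw [if_neg, filter_eq']
              · simp [hμC]
              · intro h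
                rcases mem_union.1 h with h | h
                · exact hμC h
                · exact hμ (hY' _ h)
          · congr 1
            ext x
            simp only [mem_filter, mem_univ, true_and]
            by_cases hx : x = 0
            · simp [hx, hC]
            · have : (μ * x + ν) / x = μ + ν / x := by field_simp
              simp [this, hx]
        rw [e1]
        omega
  · intro u
    by_cases hu : u = 0
    · have := card_le_three (fun y => (u, y) ∈ triT A B C ∪ Z) (fun y => y ∈ B)
        (fun y => y = 0) (by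
          intro x hx
          rcases mem_union.1 hx with h | h
          · simp only [mem_triT, hu, div_zero] at h
            exact Or.inl ((h.not1 hA).resolve_right hC)
          · exact Or.inr (hZ' _ _ h).2)
      omega
    · have cC := card_div_right C hu
      by_cases huA : u ∈ A
      · have := card_ge_three (fun y => (u, y) ∈ triT A B C ∪ Z) (fun y => y ∈ B)
          (fun y => y / u ∈ C) (by
            intro x
            simp only [mem_triT, mem_union]
            exact odd3_of1 _ _ _ huA)
        omega
      · have := card_le_three (fun y => (u, y) ∈ triT A B C ∪ Z) (fun y => y ∈ B)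
          (fun y => y / u ∈ C) (by
            intro x hx
            rcases mem_union.1 hx with h | h
            · simp only [mem_triT] at h
              exact h.not1 huA
            · exact absurd (hZ' _ _ h).1 hu)
        omega
  · have h1 := card_union_le C Y
    have h2 : #Y ≤ 1 := by simpa using card_le_card hY
    omega
  · rw [card_union_of_disjoint, card_union_of_disjoint]
    · omega
    · rw [disjoint_left]
      intro x hx hx'
      rw [hY' x hx'] at hx
      exact hC hx
    · rw [disjoint_left]
      rintro ⟨x, y⟩ hx hx'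
      obtain ⟨rfl, rfl⟩ := hZ' x y hx'
      simp [mem_triT, Odd3, hA, hB, hC] at hx

end Pool.Agent.H458Z.Sec
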