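import Pool.Agent.H458Z.Sec.Small
import Pool.Agent.H458Z.Sec.Tri

/-!
# All sizes are attained
-/

set_option autoImplicit false

namespace Pool.Agent.H458Z.Sec

open Finset

/-- The size of the overlap of the intervals `[D, D + b)` and `[i, i + b)`. -/
def rho (D b i : ℕ) : ℕ := min (D + b) (i + b) - max D i

theorem card_rho (D b i : ℕ) :
    #((Ico D (D + b)).filter fun j => i ≤ j ∧ j < i + b) = rho D b i := by
  have : ((Ico D (D + b)).filter fun j => i ≤ j ∧ j < i + b) =
      Ico (max D i) (min (D + b) (i + b)) := by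
    ext j
    simp only [mem_filter, mem_Ico]
    omega
  rw [this, Nat.card_Ico, rho]

theorem exists_subset_sum (r : ℕ → ℕ) (α M : ℕ) (h0 : ∀ i < α, r i = 0)
    (h1 : ∀ i, r (i + 1) ≤ r i + 1) :
    ∀ (N : ℕ) (I : Finset ℕ), ∑ i ∈ I, i = N → I ⊆ range M → #I = α →
      ∀ τ ≤ ∑ i ∈ I, r i, ∃ J ⊆ range M, #J = α ∧ ∑ i ∈ J, r i = τ := by
  intro N
  induction N using Nat.strong_induction_on with
  | _ N ih =>
    intro I hN hI hc τ hτ
    rcases hτ.eq_or_lt with h | h
    · exact ⟨I, hI, hc, h.symm⟩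
    obtain ⟨i, hi1, hi0⟩ : ∃ i, i + 1 ∈ I ∧ i ∉ I := by
      by_contra hcon
      push Not at hcon
      have hdown : ∀ j, j ∈ I → range (j + 1) ⊆ I := by
        intro j
        induction j with
        | zero =>
          intro hj
          simpa using hj
        | succ j ihj =>
          intro hj
          rw [range_add_one, insert_subset_iff]
          exact ⟨hj, ihj (hcon j hj)⟩
      have : ∑ i ∈ I, r i = 0 := by
        apply sum_eq_zero
        intro j hj
        apply h0
        have := card_le_card (hdown j hj)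
        rw [card_range] at this
        omega
      omega
    have hi0' : i ∉ I.erase (i + 1) := fun h => hi0 (mem_of_mem_erase h)
    have e1 := add_sum_erase I (fun i => i) hi1
    have e2 := add_sum_erase I r hi1
    have e3 := card_erase_add_one hi1
    have e4 := h1 i
    refine ih (∑ j ∈ insert i (I.erase (i + 1)), j) ?_ (insert i (I.erase (i + 1))) rfl ?_ ?_ τ ?_
    · rw [sum_insert hi0']
      omega
    · rw [insert_subset_iff]
      refine ⟨?_, (erase_subset _ _).trans hI⟩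
      have := hI hi1
      simp only [mem_range] at this ⊢
      omega
    · rw [card_insert_of_notMem hi0']
      omega
    · rw [sum_insert hi0']
      omega

theorem sum_rho_right (D b p : ℕ) :
    2 * p * b + p ≤ 2 * ∑ i ∈ Ico D (D + p), rho D b i + p ^ 2 := by
  induction p with
  | zero => simp
  | succ p ih =>
    rw [← add_assoc D p 1, sum_Ico_succ_top (by omega)]
    have : b ≤ rho D b (D + p) + p := by
      unfold rho
      omega
    nlinarith

theorem sum_rho_left (D b p : ℕ) (hp : p ≤ D) :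
    2 * p * b ≤ 2 * ∑ i ∈ Ico (D - p) D, rho D b i + p ^ 2 + p := by
  induction p with
  | zero => simp
  | succ p ih =>
    rw [sum_eq_sum_Ico_succ_bot (by omega)]
    have e : D - (p + 1) + 1 = D - p := by omega
    rw [e]
    have : b ≤ rho D b (D - (p + 1)) + (p + 1) := by
      unfold rho
      omega
    have := ih (by omega)
    nlinarith

theorem exists_tau (α b τ : ℕ) (hτ : 4 * τ + α ^ 2 ≤ 4 * α * b) :
    ∃ J ⊆ range (2 * α + b), #J = α ∧ ∑ i ∈ J, rho (α + b) b i = τ := by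
  obtain ⟨p, p', hα, hp⟩ : ∃ p p', α = p + p' ∧ (p' = p ∨ p' = p + 1) :=
    ⟨α / 2, α - α / 2, by omega, by omega⟩
  refine exists_subset_sum (rho (α + b) b) α (2 * α + b) ?_ ?_ _
    (Ico (α + b - p) (α + b + p')) rfl ?_ ?_ τ ?_
  · intro i hi
    unfold rho
    omega
  · intro i
    unfold rho
    omega
  · intro i hi
    simp only [mem_Ico, mem_range] at hi ⊢
    omega
  · rw [Nat.card_Ico]
    omega
  · rw [← sum_Ico_consecutive _ (show α + b - p ≤ α + b by omega)
      (show α + b ≤ α + b + p' by omega)]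
    have h1 := sum_rho_right (α + b) b p'
    have h2 := sum_rho_left (α + b) b p (by omega)
    generalize ∑ i ∈ Ico (α + b) (α + b + p'), rho (α + b) b i = X at *
    generalize ∑ i ∈ Ico (α + b - p) (α + b), rho (α + b) b i = Y at *
    rcases hp with rfl | rfl <;> subst hα <;> nlinarith

variable {F : Type} [Field F] [Fintype F] [DecidableEq F]

theorem exists_gen (F : Type) [Field F] [Fintype F] :
    ∃ g : F, g ≠ 0 ∧ ∀ i j, i + 1 < Fintype.card F → j + 1 < Fintype.card F →
      g ^ i = g ^ j → i = j := by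
  classical
  obtain ⟨g, hg⟩ := IsCyclic.exists_ofOrder_eq_natCard (α := Fˣ)
  rw [Nat.card_eq_fintype_card, Fintype.card_units] at hg
  refine ⟨g, g.ne_zero, ?_⟩
  intro i j hi hj h
  apply pow_injOn_Iio_orderOf (x := g)
  · rw [hg]
    simp only [Set.mem_Iio]
    omega
  · rw [hg]
    simp only [Set.mem_Iio]
    omega
  · apply Units.ext
    simpa using h

theorem exists_triple (α b τ : ℕ) (hτ : 4 * τ + α ^ 2 ≤ 4 * α * b)
    (hq : 2 * α + 2 * b < Fintype.card F) :
    ∃ A B C : Finset F, 0 ∉ A ∧ 0 ∉ B ∧ 0 ∉ C ∧ #A = α ∧ #B = b ∧ #C = b ∧ triple A B C = τ := by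
  obtain ⟨g, hg0, hg⟩ := exists_gen F
  obtain ⟨J, hJ, hJc, hJs⟩ := exists_tau α b τ hτ
  have hJ' : ∀ i ∈ J, i < 2 * α + b := fun i hi => mem_range.1 (hJ hi)
  have h0 : ∀ s : Finset ℕ, (0 : F) ∉ s.image fun i => g ^ i := by
    intro s hs
    obtain ⟨i, _, hi⟩ := mem_image.1 hs
    exact pow_ne_zero i hg0 hi
  have hc : ∀ s : Finset ℕ, (∀ i ∈ s, i + 1 < Fintype.card F) →
      #(s.image fun i => g ^ i) = #s := by
    intro s hs
    apply card_image_of_injOn
    intro i hi j hj h
    exact hg i j (hs i hi) (hs j hj) h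
  by_cases hb : b = 0
  · have hα : α = 0 := by
      subst hb
      nlinarith
    have hτ0 : τ = 0 := by
      subst hb
      omega
    exact ⟨∅, ∅, ∅, by simp, by simp, by simp, by simp [hα], by simp [hb], by simp [hb],
      by simp [triple, hτ0]⟩
  refine ⟨J.image fun i => g ^ i, (Ico (α + b) (α + b + b)).image fun i => g ^ i,
    (range b).image fun i => g ^ i, h0 _, h0 _, h0 _, ?_, ?_, ?_, ?_⟩
  · rw [hc, hJc]
    intro i hi
    have := hJ' i hi
    omega
  · rw [hc, Nat.card_Ico]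
    · omega
    · intro i hi
      have := mem_Ico.1 hi
      omega
  · rw [hc, card_range]
    intro i hi
    have := mem_range.1 hi
    omega
  · rw [← hJs]
    simp only [← card_rho]
    have e : ∑ i ∈ J, #((Ico (α + b) (α + b + b)).filter fun j => i ≤ j ∧ j < i + b) =
        #((J ×ˢ Ico (α + b) (α + b + b)).filter fun p => p.1 ≤ p.2 ∧ p.2 < p.1 + b) := by
      simp only [card_filter, sum_product]
    rw [e]
    unfold triple
    symm
    apply card_bij (fun p _ => (g ^ p.1, g ^ p.2))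
    · rintro ⟨i, j⟩ hp
      simp only [mem_filter, mem_product] at hp
      simp only [mem_filter, mem_univ, true_and]
      refine ⟨mem_image_of_mem _ hp.1.1, mem_image_of_mem _ hp.1.2, ?_⟩
      refine mem_image.2 ⟨j - i, mem_range.2 (by omega), ?_⟩
      rw [pow_sub₀ _ hg0 hp.2.1, div_eq_mul_inv]
    · rintro ⟨i, j⟩ hp ⟨i', j'⟩ hp' h
      simp only [mem_filter, mem_product, mem_Ico] at hp hp'
      simp only [Prod.mk.injEq] at h ⊢
      have := hJ' i hp.1.1
      have := hJ' i' hp'.1.1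
      exact ⟨hg _ _ (by omega) (by omega) h.1, hg _ _ (by omega) (by omega) h.2⟩
    · rintro ⟨x, y⟩ hp
      simp only [mem_filter, mem_univ, true_and, mem_image, mem_Ico, mem_range] at hp
      obtain ⟨⟨i, hi, rfl⟩, ⟨j, hj, rfl⟩, l, hl, hlw⟩ := hp
      have hi' := hJ' i hi
      have : g ^ (i + l) = g ^ j := by
        rw [pow_add, hlw]
        field_simp
      have hij := hg _ _ (by omega) (by omega) this
      refine ⟨(i, j), ?_, rfl⟩
      simp only [mem_filter, mem_product, mem_Ico]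
      exact ⟨⟨hi, hj⟩, by omega, by omega⟩

theorem att_interval {k : ℕ} (α b m : ℕ) (hpar : α % 2 ≠ k % 2) (h1 : α + b + 3 ≤ k)
    (h2 : b + b + 3 ≤ k) (hk : 2 * k ≤ Fintype.card F + 1)
    (hL : (Fintype.card F : ℤ) * (α + 2 * b) - 2 * (2 * α * b + b ^ 2) ≤ m)
    (hU : (m : ℤ) ≤ (Fintype.card F : ℤ) * (α + 2 * b) - 2 * b ^ 2 - α ^ 2) : Att F k m := by
  obtain ⟨d, hd⟩ : ∃ d : ℕ, (m : ℤ) =
      (Fintype.card F : ℤ) * (α + 2 * b) - 2 * (2 * α * b + b ^ 2) + d :=
    ⟨((m : ℤ) - ((Fintype.card F : ℤ) * (α + 2 * b) - 2 * (2 * α * b + b ^ 2))).toNat, by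
      rw [Int.toNat_of_nonneg (by linarith)]
      ring⟩
  have hd2 : d + α ^ 2 ≤ 4 * α * b := by
    zify
    linarith
  obtain ⟨A, B, C, hA, hB, hC, cA, cB, cC, hT⟩ := exists_triple (F := F) α b (d / 4)
    (by omega) (by omega)
  have h := att_tri A B C hA hB hC (k := k) (by omega) (by omega) (by omega) (by omega) hk
    (ε := d % 4) (by omega)
  have hc := card_triT A B C hA hB hC
  rw [cA, cB, cC, hT] at hc
  have hd4 : (d : ℤ) = 4 * ((d / 4 : ℕ) : ℤ) + ((d % 4 : ℕ) : ℤ) := by omega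
  have : #(triT A B C) + #C + d % 4 = m := by
    rw [cC]
    zify
    push_cast at hd4 hc
    linarith
  rwa [this] at h

theorem exists_cover (L U : ℕ → ℤ) (m : ℤ) (h0 : L 0 ≤ m) :
    ∀ J, (∀ j < J, L (j + 1) ≤ U j + 1) → m ≤ U J → ∃ j ≤ J, L j ≤ m ∧ m ≤ U j := by
  intro J
  induction J with
  | zero => exact fun _ h => ⟨0, le_rfl, h0, h⟩
  | succ J ih =>
    intro h hm
    by_cases hc : L (J + 1) ≤ m
    · exact ⟨J + 1, le_rfl, hc, hm⟩
    · have := h J (by omega)
      obtain ⟨j, hj, h'⟩ := ih (fun j hj => h j (by omega)) (by omega)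
      exact ⟨j, by omega, h'⟩

theorem att_mid {k m : ℕ} (hq : 100 * Fintype.card F < k ^ 2) (hk : 2 * k ≤ Fintype.card F + 1)
    (h1 : (k - 1) * Fintype.card F ≤ m) (h2 : m ≤ (k + 1) * Fintype.card F) : Att F k m := by
  have hk200 : 200 ≤ k := by
    by_contra hc
    have hk0 : 1 ≤ k := by
      by_contra h
      have : k = 0 := by omega
      subst this
      simp at hq
    nlinarith
  obtain ⟨h, a, hka, ha1, ha2, hh⟩ : ∃ h a, k = a + 4 * (h + 1) + 1 ∧ h ≤ a ∧ a ≤ h + 4 ∧
      39 ≤ h := ⟨k / 5 - 1, k - 1 - 4 * (k / 5), by omega, by omega, by omega, by omega⟩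
  set q := Fintype.card F with hqdef
  have h1' : ((k : ℤ) - 1) * q ≤ m := by
    have : ((k - 1 : ℕ) : ℤ) = k - 1 := by omega
    rw [← this]
    exact_mod_cast h1
  have h2' : (m : ℤ) ≤ ((k : ℤ) + 1) * q := by exact_mod_cast h2
  have hq' : 100 * (q : ℤ) < (k : ℤ) ^ 2 := by exact_mod_cast hq
  have hk' : 2 * (k : ℤ) ≤ q + 1 := by exact_mod_cast hk
  have hka' : (k : ℤ) = a + 4 * (h + 1) + 1 := by exact_mod_cast hka
  have ha1' : (h : ℤ) ≤ a := by exact_mod_cast ha1
  have ha2' : (a : ℤ) ≤ h + 4 := by exact_mod_cast ha2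
  have hh' : (39 : ℤ) ≤ h := by exact_mod_cast hh
  obtain ⟨j, hj, hL, hU⟩ := exists_cover
    (fun j => (q : ℤ) * (((a + 2 * j : ℕ) : ℤ) + 2 * ((2 * (h + 1) : ℕ) : ℤ)) -
      2 * (2 * ((a + 2 * j : ℕ) : ℤ) * ((2 * (h + 1) : ℕ) : ℤ) + ((2 * (h + 1) : ℕ) : ℤ) ^ 2))
    (fun j => (q : ℤ) * (((a + 2 * j : ℕ) : ℤ) + 2 * ((2 * (h + 1) : ℕ) : ℤ)) -
      2 * ((2 * (h + 1) : ℕ) : ℤ) ^ 2 - ((a + 2 * j : ℕ) : ℤ) ^ 2) m
    (by
      push_cast
      rw [hka'] at h1'
      nlinarith) h
    (by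
      intro j hj
      have hj' : (j : ℤ) < h := by exact_mod_cast hj
      have hj0 : (0 : ℤ) ≤ j := by positivity
      push_cast
      have e1 : (h : ℤ) * (5 * h) ≤ (a + 2 * j) * (8 * (h + 1) - (a + 2 * j)) := by
        apply mul_le_mul <;> linarith
      have e2 : (k : ℤ) ^ 2 ≤ (5 * h + 9) ^ 2 := by
        apply pow_le_pow_left₀ <;> linarith
      nlinarith)
    (by
      push_cast
      have e1 : ((a : ℤ) + 2 * h) ^ 2 ≤ (3 * h + 4) ^ 2 := by
        apply pow_le_pow_left₀ <;> linarith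
      have e2 : (2 * (h : ℤ) - 2) * (10 * h + 9) ≤ (2 * h - 2) * q := by
        apply mul_le_mul_of_nonneg_left <;> linarith
      rw [hka'] at h2'
      nlinarith)
  exact att_interval (a + 2 * j) (2 * (h + 1)) m (by omega) (by omega) (by omega) hk hL hU

theorem att_all {k m : ℕ} (h1 : 100 * Fintype.card F < k ^ 2)
    (h2 : 100 * Fintype.card F < (Fintype.card F + 1 - k) ^ 2)
    (hm : m ≤ Fintype.card F ^ 2 + Fintype.card F + 1) : Att F k m := by
  have hq : 1 < Fintype.card F := Fintype.one_lt_card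
  set q := Fintype.card F with hqdef
  have hk3 : 3 ≤ k := by
    by_contra hc
    have : k ^ 2 ≤ 2 ^ 2 := Nat.pow_le_pow_left (by omega) 2
    omega
  have hk3' : 3 ≤ q + 1 - k := by
    by_contra hc
    have : (q + 1 - k) ^ 2 ≤ 2 ^ 2 := Nat.pow_le_pow_left (by omega) 2
    omega
  obtain ⟨l, hl⟩ : ∃ l, q + 1 = k + l := ⟨q + 1 - k, by omega⟩
  have hl' : q + 1 - k = l := by omega
  rw [hl'] at h2 hk3'
  have hcompl : Att F l (q ^ 2 + q + 1 - m) → Att F k m := by
    intro h
    have := h.compl (by omega)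
    rw [← hqdef] at this
    have e1 : q + 1 - l = k := by omega
    have e2 : q ^ 2 + q + 1 - (q ^ 2 + q + 1 - m) = m := by omega
    rwa [e1, e2] at this
  have hid : (k + 1) * q + (l - 1) * q = q ^ 2 + q := by
    rw [← add_mul]
    have : k + 1 + (l - 1) = q + 1 := by omega
    rw [this]
    ring
  have hid' : (k - 1) * q + (l + 1) * q = q ^ 2 + q := by
    rw [← add_mul]
    have : k - 1 + (l + 1) = q + 1 := by omega
    rw [this]
    ring
  by_cases ha : m ≤ (k - 1) * q
  · exact att_small hk3 (by omega) ha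
  by_cases hb : (k + 1) * q < m
  · exact hcompl (att_small hk3' (by omega) (by rw [← hqdef]; omega))
  by_cases hc : 2 * k ≤ q + 1
  · exact att_mid h1 hc (by rw [← hqdef]; omega) (by rw [← hqdef]; omega)
  · exact hcompl (att_mid h2 (by omega) (by rw [← hqdef]; omega) (by rw [← hqdef]; omega))

end Pool.Agent.H458Z.Sec
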