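import Pool.Agent.H458Z.Sec.Even

/-!
# The gap set in odd characteristic: preparations
-/

set_option autoImplicit false

namespace Pool.Agent.H458Z.Sec

open Finset

variable {F : Type} [Field F] [Fintype F] [DecidableEq F]

theorem card_nonsq (h2 : ringChar F ≠ 2) :
    2 * #(univ.filter fun a : F => quadraticChar F a = -1) + 1 = Fintype.card F := by
  have h0 := quadraticChar_sum_zero h2
  have h1 : ∀ a : F, 2 * (if quadraticChar F a = -1 then (1 : ℤ) else 0) +
      (if a = 0 then 1 else 0) + quadraticChar F a = 1 := by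
    intro a
    by_cases ha : a = 0
    · simp [ha]
    · rcases quadraticChar_dichotomy ha with h | h
      · rw [h]
        simp [ha]
      · rw [h]
        simp [ha]
  have h3 : ∑ a : F, (2 * (if quadraticChar F a = -1 then (1 : ℤ) else 0) +
      (if a = 0 then 1 else 0) + quadraticChar F a) = ∑ _a : F, (1 : ℤ) :=
    sum_congr rfl fun a _ => h1 a
  rw [sum_add_distrib, sum_add_distrib, h0, ← mul_sum, sum_boole] at h3
  simp only [sum_ite_eq', mem_univ, if_true, add_zero, sum_const, card_univ, nsmul_eq_mul,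
    mul_one] at h3
  exact_mod_cast h3

theorem chi_mul_sq (a : F) {d : F} (hd : d ≠ 0) :
    quadraticChar F (a * d ^ 2) = quadraticChar F a := by
  rw [map_mul, quadraticChar_sq_one' hd, mul_one]

theorem chi_mul_neg {a b : F} (h : quadraticChar F (a * b) = -1) :
    (quadraticChar F a = 1 ∧ quadraticChar F b = -1) ∨
      (quadraticChar F b = 1 ∧ quadraticChar F a = -1) := by
  have ha : a ≠ 0 := by
    rintro rfl
    simp at h
  have hb : b ≠ 0 := by
    rintro rfl
    simp at h
  rw [map_mul] at h
  rcases quadraticChar_dichotomy ha with h1 | h1 <;>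
    rcases quadraticChar_dichotomy hb with h2 | h2 <;> rw [h1, h2] at h ⊢ <;> simp at h ⊢

theorem card_pair_nonsq (h2 : ringChar F ≠ 2) {s t : F} (hst : s ≠ t) :
    2 * #(univ.filter fun c : F => quadraticChar F ((s - c) * (t - c)) = -1) + 1 =
      Fintype.card F := by
  rw [← card_nonsq h2]
  congr 2
  have hne : ∀ c, quadraticChar F ((s - c) * (t - c)) = -1 → t - c ≠ 0 := by
    intro c hc h
    rw [h] at hc
    simp at hc
  apply card_bij (fun c _ => (s - c) / (t - c))
  · intro c hc
    simp only [mem_filter, mem_univ, true_and] at hc ⊢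
    have h := hne c hc
    rw [← chi_mul_sq _ h, ← hc]
    congr 1
    field_simp
  · intro c hc c' hc' h
    simp only [mem_filter, mem_univ, true_and] at hc hc'
    rw [div_eq_div_iff (hne c hc) (hne c' hc')] at h
    have : (c - c') * (s - t) = 0 := by linear_combination h
    exact sub_eq_zero.1 ((mul_eq_zero.1 this).resolve_right (sub_ne_zero.2 hst))
  · intro a ha
    simp only [mem_filter, mem_univ, true_and] at ha
    have h1 : 1 - a ≠ 0 := by
      intro h
      have : a = 1 := by linear_combination -h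
      rw [this] at ha
      simp at ha
    have hts : t - s ≠ 0 := sub_ne_zero.2 hst.symm
    have e1 : t - (s - a * t) / (1 - a) = (t - s) / (1 - a) := by
      field_simp
      ring
    have e2 : s - (s - a * t) / (1 - a) = a * ((t - s) / (1 - a)) := by
      field_simp
      ring
    have h3 : (t - s) / (1 - a) ≠ 0 := div_ne_zero hts h1
    refine ⟨(s - a * t) / (1 - a), ?_, ?_⟩
    · simp only [mem_filter, mem_univ, true_and]
      rw [e1, e2, mul_assoc, ← sq, chi_mul_sq _ h3, ha]
    · rw [e1, e2, mul_div_assoc, div_self h3, mul_one]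

/-- The abscissa of the meeting point of two secants of the parabola. -/
def mx (p : F × F × F × F) : F :=
  (p.1 * p.2.1 - p.2.2.1 * p.2.2.2) / (p.1 + p.2.1 - p.2.2.1 - p.2.2.2)

omit [Fintype F] [DecidableEq F] in
theorem eq_mx {s t s' t' x : F} (h : (s - x) * (t - x) = (s' - x) * (t' - x)) :
    (s = s' ∧ t = t') ∨ (s = t' ∧ t = s') ∨ x = mx (s, t, s', t') := by
  by_cases hD : s + t - s' - t' = 0
  · have : (s - s') * (s - t') = 0 := by linear_combination -h + (s - x) * hD
    rcases mul_eq_zero.1 this with h1 | h1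
    · exact Or.inl ⟨by linear_combination h1, by linear_combination hD - h1⟩
    · exact Or.inr (Or.inl ⟨by linear_combination h1, by linear_combination hD - h1⟩)
  · right
    right
    unfold mx
    dsimp only
    field_simp
    linear_combination -h

/-- The ordered pairs whose secant passes through a given point. -/
def pairs (V : Finset F) (x δ : F) : Finset (F × F) :=
  V.offDiag.filter fun p => (p.1 - x) * (p.2 - x) = δ

omit [Fintype F] in
theorem mem_pairs (V : Finset F) (x δ s t : F) :
    (s, t) ∈ pairs V x δ ↔ s ∈ V ∧ t ∈ V ∧ s ≠ t ∧ (s - x) * (t - x) = δ := by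
  simp only [pairs, mem_filter, mem_offDiag, and_assoc]

/-- No three secants pass through a point off the parabola. -/
def Gen (V : Finset F) : Prop := ∀ x δ, δ ≠ 0 → #(pairs V x δ) ≤ 4

omit [Fintype F] in
theorem Gen.mono {V W : Finset F} (h : Gen W) (hV : V ⊆ W) : Gen V := by
  intro x δ hδ
  refine le_trans (card_le_card ?_) (h x δ hδ)
  rintro ⟨s, t⟩ hp
  rw [mem_pairs] at hp ⊢
  exact ⟨hV hp.1, hV hp.2.1, hp.2.2⟩

theorem exists_gen_set : ∀ n, n ^ 5 + n < Fintype.card F → ∃ V : Finset F, #V = n ∧ Gen V := by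
  intro n
  induction n with
  | zero =>
    refine fun _ => ⟨∅, rfl, fun x δ _ => ?_⟩
    simp [pairs]
  | succ n ih =>
    intro hn
    have hn' : n ^ 5 + n < Fintype.card F := by
      have := Nat.pow_le_pow_left (show n ≤ n + 1 by omega) 5
      omega
    obtain ⟨V, hV, hG⟩ := ih hn'
    obtain ⟨z, hz⟩ : ∃ z, z ∉ V ∪ ((V ×ˢ V ×ˢ V ×ˢ V) ×ˢ V).image fun p =>
        mx p.1 + (p.1.1 - mx p.1) * (p.1.2.1 - mx p.1) / (p.2 - mx p.1) := by
      by_contra hc
      push Not at hc
      have h4 := (card_le_card (show univ ⊆ _ from fun z _ => hc z)).trans (card_union_le _ _)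
      have h5 := card_image_le (s := (V ×ˢ V ×ˢ V ×ˢ V) ×ˢ V) (f := fun p =>
        mx p.1 + (p.1.1 - mx p.1) * (p.1.2.1 - mx p.1) / (p.2 - mx p.1))
      simp only [card_product, hV, card_univ] at h4 h5
      have : n * (n * (n * n)) * n = n ^ 5 := by ring
      omega
    rw [mem_union, not_or] at hz
    refine ⟨insert z V, by rw [card_insert_of_notMem hz.1, hV], ?_⟩
    intro x δ hδ
    by_cases hc : #(pairs V x δ) ≤ 2
    · have : pairs (insert z V) x δ ⊆
          pairs V x δ ∪ {(z, x + δ / (z - x)), (x + δ / (z - x), z)} := by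
        rintro ⟨s, t⟩ hp
        rw [mem_pairs, mem_insert, mem_insert] at hp
        obtain ⟨hs, ht, hst, h⟩ := hp
        have hs0 : s - x ≠ 0 := left_ne_zero_of_mul (h ▸ hδ)
        have ht0 : t - x ≠ 0 := right_ne_zero_of_mul (h ▸ hδ)
        rw [mem_union, mem_pairs, mem_insert, mem_singleton]
        rcases hs with rfl | hs
        · right
          left
          rw [← h]
          congr 1
          field_simp
          ring
        rcases ht with rfl | ht
        · right
          right
          rw [← h]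
          congr 1
          field_simp
          ring
        exact Or.inl ⟨hs, ht, hst, h⟩
      have h1 := (card_le_card this).trans (card_union_le _ _)
      have h2 := card_le_two (a := (z, x + δ / (z - x))) (b := (x + δ / (z - x), z))
      omega
    · obtain ⟨⟨s, t⟩, hp⟩ : (pairs V x δ).Nonempty := card_pos.1 (by omega)
      obtain ⟨⟨s', t'⟩, hp', hn⟩ : ∃ p' ∈ pairs V x δ, p' ∉ ({(s, t), (t, s)} : Finset (F × F)) := by
        by_contra hcon
        push Not at hcon
        have h1 := card_le_card (show pairs V x δ ⊆ _ from hcon)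
        have h2 := card_le_two (a := (s, t)) (b := (t, s))
        omega
      rw [mem_pairs] at hp hp'
      simp only [mem_insert, mem_singleton, Prod.mk.injEq, not_or] at hn
      have hx : x = mx (s, t, s', t') := by
        rcases eq_mx (hp.2.2.2.trans hp'.2.2.2.symm) with h | h | h
        · exact absurd ⟨h.1.symm, h.2.symm⟩ hn.1
        · exact absurd ⟨h.2.symm, h.1.symm⟩ hn.2
        · exact h
      have hbad : ∀ u ∈ V, (z - x) * (u - x) ≠ δ := by
        intro u hu h
        apply hz.2
        refine mem_image.2 ⟨((s, t, s', t'), u), by simp [hp.1, hp.2.1, hp'.1, hp'.2.1, hu], ?_⟩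
        have hu0 : u - x ≠ 0 := right_ne_zero_of_mul (h ▸ hδ)
        dsimp only
        rw [← hx, hp.2.2.2, ← h]
        field_simp
        ring
      refine le_trans (card_le_card ?_) (hG x δ hδ)
      rintro ⟨a, b⟩ hab
      rw [mem_pairs, mem_insert, mem_insert] at hab
      obtain ⟨ha, hb, hab, h⟩ := hab
      rw [mem_pairs]
      rcases ha with rfl | ha
      · exact absurd h (hbad b (hb.resolve_left (Ne.symm hab)))
      rcases hb with rfl | hb
      · exact absurd (by rw [mul_comm]; exact h) (hbad a ha)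
      exact ⟨ha, hb, hab, h⟩

theorem exists_free (hq : 78 ^ 5 + 78 < Fintype.card F) : ∃ V X : Finset F, #V = 39 ∧ Gen V ∧
    Fintype.card F ≤ 2 ^ 78 * (#X + 79) ∧
    ∀ c ∈ X, ∀ s ∈ V, ∀ t ∈ V, quadraticChar F ((s - c) * (t - c)) = 1 := by
  obtain ⟨W, hW, hG⟩ := exists_gen_set 78 hq
  obtain ⟨A, hA, hc⟩ := exists_le_card_fiber_of_mul_le_card_of_maps_to (s := (univ : Finset F))
    (t := W.powerset) (f := fun c => W.filter fun s => quadraticChar F (s - c) = 1)
    (n := Fintype.card F / 2 ^ 78) (fun c _ => mem_powerset.2 (filter_subset _ _))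
    ⟨∅, by simp⟩ (by rw [card_powerset, hW, card_univ]; exact Nat.mul_div_le _ _)
  rw [mem_powerset] at hA
  set X1 := univ.filter fun c => (W.filter fun s => quadraticChar F (s - c) = 1) = A with hX1
  have hX : Fintype.card F ≤ 2 ^ 78 * (#(X1 \ W) + 79) := by
    have := le_card_sdiff W X1
    omega
  have hmem : ∀ c ∈ X1 \ W, ∀ s ∈ W, (s ∈ A ↔ quadraticChar F (s - c) = 1) ∧ s - c ≠ 0 := by
    intro c hc s hs
    rw [mem_sdiff, hX1, mem_filter] at hc
    refine ⟨?_, ?_⟩
    · rw [← hc.1.2, mem_filter]
      exact ⟨fun h => h.2, fun h => ⟨hs, h⟩⟩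
    · intro h
      exact hc.2 (sub_eq_zero.1 h ▸ hs)
  by_cases h39 : 39 ≤ #A
  · obtain ⟨V, hVA, hV⟩ := exists_subset_card_eq h39
    refine ⟨V, X1 \ W, hV, hG.mono (hVA.trans hA), hX, ?_⟩
    intro c hc s hs t ht
    rw [map_mul, (hmem c hc s (hA (hVA hs))).1.1 (hVA hs), (hmem c hc t (hA (hVA ht))).1.1 (hVA ht),
      mul_one]
  · obtain ⟨V, hVA, hV⟩ := exists_subset_card_eq (s := W \ A) (n := 39)
      (by rw [card_sdiff_of_subset hA]; omega)
    refine ⟨V, X1 \ W, hV, hG.mono (hVA.trans sdiff_subset), hX, ?_⟩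
    have key : ∀ c ∈ X1 \ W, ∀ s ∈ V, quadraticChar F (s - c) = -1 := by
      intro c hc s hs
      have h1 := mem_sdiff.1 (hVA hs)
      have h3 := hmem c hc s h1.1
      exact (quadraticChar_dichotomy h3.2).resolve_left fun h => h1.2 (h3.1.2 h)
    intro c hc s hs t ht
    rw [map_mul, key c hc s hs, key c hc t ht]
    norm_num

omit [Field F] [Fintype F] in
theorem card_le_image_add_one {α : Type} (D : Finset α) (ψ : α → F) (x0 : F)
    (h2 : ∀ x, #(D.filter fun d => ψ d = x) ≤ 2)
    (h1 : ∀ x, x ≠ x0 → #(D.filter fun d => ψ d = x) ≤ 1) : #D ≤ #(D.image ψ) + 1 := by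
  rw [card_eq_sum_card_image ψ D]
  calc ∑ x ∈ D.image ψ, #(D.filter fun d => ψ d = x)
      ≤ ∑ x ∈ D.image ψ, (1 + if x = x0 then 1 else 0) := by
        apply sum_le_sum
        intro x _
        split_ifs with h
        · exact h2 x
        · exact h1 x h
    _ ≤ #(D.image ψ) + 1 := by
        rw [sum_add_distrib, sum_ite_eq']
        split_ifs <;> simp

end Pool.Agent.H458Z.Sec
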