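import Pool.Agent.H458Z.Sec.Defs

/-!
# Small sizes: subsets of `k - 1` concurrent lines
-/

set_option autoImplicit false

namespace Pool.Agent.H458Z.Sec

open Finset

variable {F : Type} [Field F] [Fintype F] [DecidableEq F]

theorem exists_sizes {k : ℕ} (hk2 : 2 ≤ k) (hkq : k + 2 ≤ Fintype.card F) :
    ∀ j, 2 ≤ j → j ≤ Fintype.card F → ∀ m ≤ j * Fintype.card F,
      ∃ (X : Finset F) (t : F → ℕ), #X = j ∧ (∀ x, x ∉ X → t x = 0) ∧
        (∀ x, t x ≤ Fintype.card F ∧ t x ≠ k) ∧ ∑ x ∈ X, t x = m := by
  intro j hj
  induction j, hj using Nat.le_induction with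
  | base =>
    intro _ m hm
    obtain ⟨t1, t2, h1, h2, h3, h4, h5⟩ : ∃ t1 t2, t1 ≤ Fintype.card F ∧ t2 ≤ Fintype.card F ∧
        t1 ≠ k ∧ t2 ≠ k ∧ t1 + t2 = m := by
      by_cases ha : m = k
      · exact ⟨k - 1, 1, by omega, by omega, by omega, by omega, by omega⟩
      by_cases hb : m = Fintype.card F + k
      · exact ⟨Fintype.card F - 1, k + 1, by omega, by omega, by omega, by omega, by omega⟩
      by_cases hc : m ≤ Fintype.card F
      · exact ⟨m, 0, by omega, by omega, by omega, by omega, by omega⟩
      · exact ⟨Fintype.card F, m - Fintype.card F, by omega, by omega, by omega, by omega,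
          by omega⟩
    refine ⟨{0, 1}, fun x => if x = 0 then t1 else if x = 1 then t2 else 0, ?_, ?_, ?_, ?_⟩
    · rw [card_pair zero_ne_one]
    · intro x hx
      simp only [mem_insert, mem_singleton, not_or] at hx
      simp [hx.1, hx.2]
    · intro x
      dsimp only
      split_ifs <;> omega
    · rw [sum_pair zero_ne_one]
      simpa using h5
  | succ j hj ih =>
    intro hjq m hm
    obtain ⟨r, hr1, hr2, hr3, hr4⟩ : ∃ r, r ≤ Fintype.card F ∧ r ≠ k ∧ r ≤ m ∧
        m - r ≤ j * Fintype.card F := by
      by_cases h : m ≤ j * Fintype.card F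
      · exact ⟨0, by omega, by omega, by omega, by omega⟩
      · have h1 : (j + 1) * Fintype.card F = j * Fintype.card F + Fintype.card F := by ring
        have h2 : Fintype.card F ≤ j * Fintype.card F := Nat.le_mul_of_pos_left _ (by omega)
        exact ⟨Fintype.card F, le_rfl, by omega, by omega, by omega⟩
    obtain ⟨X, t, hX, ht0, ht, hs⟩ := ih (by omega) (m - r) hr4
    obtain ⟨x0, hx0⟩ : ∃ x0, x0 ∉ X := by
      by_contra hc
      push Not at hc
      have : X = univ := eq_univ_iff_forall.2 hc
      rw [this, card_univ] at hX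
      omega
    refine ⟨insert x0 X, fun x => if x = x0 then r else t x, ?_, ?_, ?_, ?_⟩
    · rw [card_insert_of_notMem hx0, hX]
    · intro x hx
      simp only [mem_insert, not_or] at hx
      simp [hx.1, ht0 x hx.2]
    · intro x
      dsimp only
      split_ifs
      · exact ⟨hr1, hr2⟩
      · exact ht x
    · rw [sum_insert hx0, if_pos rfl]
      have : ∑ x ∈ X, (if x = x0 then r else t x) = ∑ x ∈ X, t x := by
        apply sum_congr rfl
        intro x hx
        rw [if_neg]
        rintro rfl
        exact hx0 hx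
      omega

theorem att_small {k m : ℕ} (hk3 : 3 ≤ k) (hkq : k + 2 ≤ Fintype.card F)
    (hm : m ≤ (k - 1) * Fintype.card F) : Att F k m := by
  obtain ⟨X, t, hX, ht0, ht, hs⟩ := exists_sizes (F := F) (k := k) (by omega) hkq (k - 1)
    (by omega) (by omega) m hm
  have hY : ∀ x : F, ∃ Y : Finset F, #Y = t x := by
    intro x
    obtain ⟨Y, _, hY⟩ := exists_subset_card_eq (s := (univ : Finset F)) (n := t x)
      (by simpa using (ht x).1)
    exact ⟨Y, hY⟩
  choose Y hY using hY
  refine ⟨univ.filter fun p => p.2 ∈ Y p.1, ∅, 0, ⟨by omega, ?_, ?_, ?_⟩, ?_⟩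
  · intro μ ν
    simp only [mem_filter, mem_univ, true_and, notMem_empty, if_false, add_zero]
    have : (univ.filter fun x => μ * x + ν ∈ Y x) ⊆ X := by
      intro x hx
      simp only [mem_filter, mem_univ, true_and] at hx
      by_contra hc
      have h0 := hY x
      rw [ht0 x hc, card_eq_zero] at h0
      rw [h0] at hx
      simp at hx
    have := card_le_card this
    omega
  · intro u
    simp only [mem_filter, mem_univ, true_and, add_zero, filter_mem_eq_inter, univ_inter]
    rw [hY]
    exact (ht u).2
  · simp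
    omega
  · simp only [card_empty, add_zero]
    rw [card_filter, Fintype.sum_prod_type]
    simp only [sum_boole, filter_mem_eq_inter, univ_inter, Nat.cast_id, hY]
    rw [← hs]
    symm
    apply sum_subset (subset_univ _)
    intro x _ hx
    exact ht0 x hx

end Pool.Agent.H458Z.Sec
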